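import Pool.Agent.U437.SPN.Two

/-!
# Matrices invariant under a group acting on rows and columns with at most `t` orbits
-/

set_option autoImplicit false

open scoped Matrix.Norms.L2Operator Matrix
open Finset

namespace Pool.Agent.U437.SPN

section
variable {n : ℕ}

/-- the matrix of a permutation -/
def pm (π : Equiv.Perm (Fin n)) : Matrix (Fin n) (Fin n) ℝ := Matrix.of fun a b => if a = π b then 1 else 0

theorem pm_transpose (π : Equiv.Perm (Fin n)) : (pm π)ᵀ = pm π⁻¹ := by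
  ext a b
  simp only [pm, Matrix.transpose_apply, Matrix.of_apply]
  congr 1
  rw [Equiv.Perm.eq_inv_iff_eq]
  exact propext eq_comm

theorem pm_mulVec_single (π : Equiv.Perm (Fin n)) (b : Fin n) :
    pm π *ᵥ (Pi.single b 1 : Fin n → ℝ) = Pi.single (π b) 1 := by
  ext a
  simp [pm, Pi.single_apply]

theorem pm_mul (π : Equiv.Perm (Fin n)) (A : Matrix (Fin n) (Fin n) ℝ) (a b : Fin n) :
    (pm π * A) a b = A (π⁻¹ a) b := by
  rw [Matrix.mul_apply, Finset.sum_eq_single (π⁻¹ a)]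
  · simp [pm]
  · intro c _ hc
    simp only [pm, Matrix.of_apply]
    rw [if_neg, zero_mul]
    rintro rfl
    exact hc (by simp)
  · intro h
    exact absurd (Finset.mem_univ _) h

theorem mul_pm (π : Equiv.Perm (Fin n)) (A : Matrix (Fin n) (Fin n) ℝ) (a b : Fin n) :
    (A * pm π) a b = A a (π b) := by
  rw [Matrix.mul_apply, Finset.sum_eq_single (π b)]
  · simp [pm]
  · intro c _ hc
    simp only [pm, Matrix.of_apply]
    rw [if_neg hc, mul_zero]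
  · intro h
    exact absurd (Finset.mem_univ _) h

theorem top_of_single (W : Submodule ℝ (Fin n → ℝ)) (h : ∀ x, (Pi.single x 1 : Fin n → ℝ) ∈ W) : W = ⊤ := by
  rw [eq_top_iff]
  intro v _
  have : v = ∑ x, v x • (Pi.single x 1 : Fin n → ℝ) := by
    ext a
    simp [Finset.sum_apply, Pi.single_apply]
  rw [this]
  exact W.sum_mem fun x _ => W.smul_mem _ (h x)

end

theorem two_actions (n t : ℕ) (Γ : Type) [Group Γ] (ρ σ : Γ →* Equiv.Perm (Fin n)) (r s : Fin t → Fin n)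
    (hr : ∀ x, ∃ g j, ρ g (r j) = x) (hs : ∀ x, ∃ g j, σ g (s j) = x)
    (A : Fin n → Matrix (Fin n) (Fin n) ℝ)
    (hA : ∀ i, ∀ x : Fin n → ℝ, ∑ j, ((A i) *ᵥ x) j ^ 2 ≤ ∑ j, x j ^ 2)
    (hinv : ∀ i g x y, A i (ρ g x) (σ g y) = A i x y) :
    ∃ ε : Fin n → ℝ, (∀ i, ε i = 1 ∨ ε i = -1) ∧
      ∀ x : Fin n → ℝ, ∑ j, ((∑ i, ε i • A i) *ᵥ x) j ^ 2 ≤
        (2 * 10 ^ 5) ^ 2 * (n * (1 + Real.log t)) * ∑ j, x j ^ 2 := by
  refine two_sided n t {p | ∃ g, p = (pm (ρ g), pm (σ g))} ?_ (fun j => Pi.single (r j) 1)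
    (fun j => Pi.single (s j) 1) ?_ ?_ A hA ?_
  · rintro p ⟨g, rfl⟩
    refine ⟨g⁻¹, ?_⟩
    simp only [pm_transpose, map_inv]
  · intro W hW hv
    refine top_of_single W fun x => ?_
    obtain ⟨g, j, rfl⟩ := hr x
    have := hW (pm (ρ g), pm (σ g)) ⟨g, rfl⟩ _ (hv j)
    rwa [pm_mulVec_single] at this
  · intro W hW hv
    refine top_of_single W fun x => ?_
    obtain ⟨g, j, rfl⟩ := hs x
    have := hW (pm (ρ g), pm (σ g)) ⟨g, rfl⟩ _ (hv j)
    rwa [pm_mulVec_single] at this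
  · rintro i p ⟨g, rfl⟩
    ext a b
    rw [pm_mul, mul_pm]
    have := hinv i g ((ρ g)⁻¹ a) b
    rw [← this]
    simp

open Pool.Agent.Q98.SPN in
theorem star_signs (n : ℕ) (hn : 0 < n) (ℬ : StarSubalgebra ℝ (Matrix (Fin n) (Fin n) ℝ))
    (A : Fin n → Matrix (Fin n) (Fin n) ℝ)
    (hA : ∀ i, ∀ x : Fin n → ℝ, ∑ j, ((A i) *ᵥ x) j ^ 2 ≤ ∑ j, x j ^ 2) (hB : ∀ i, A i ∈ ℬ) :
    ∃ ε : Fin n → ℝ, (∀ i, ε i = 1 ∨ ε i = -1) ∧
      ∀ x : Fin n → ℝ, ∑ j, ((∑ i, ε i • A i) *ᵥ x) j ^ 2 ≤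
        (2 * 10 ^ 5) ^ 2 * (n * max 1 (Real.log (Module.finrank ℝ ℬ / n))) * ∑ j, x j ^ 2 := by
  have hn' : (0 : ℝ) < n := by exact_mod_cast hn
  have hpos : 0 < Module.finrank ℝ ℬ := by
    have : Nonempty (Fin n) := ⟨⟨0, hn⟩⟩
    have : Module.Finite ℝ ℬ := inferInstanceAs (Module.Finite ℝ (Subalgebra.toSubmodule ℬ.toSubalgebra))
    have : Nontrivial ℬ := by
      refine ⟨0, 1, fun h => ?_⟩
      have h1 : (0 : Matrix (Fin n) (Fin n) ℝ) = 1 := congrArg Subtype.val h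
      exact zero_ne_one h1
    exact Module.finrank_pos
  obtain ⟨ε, hε, hb⟩ := star_bound n ℬ (Module.finrank ℝ ℬ) (by exact_mod_cast hpos) le_rfl (Fin n) A hB
    (fun i => norm_le_one_of _ (hA i))
  refine ⟨ε, hε, fun x => ?_⟩
  have h1 := sum_sq_mulVec_le (∑ i, ε i • A i) x
  simp only [Real.norm_eq_abs, sq_abs] at h1
  refine h1.trans (mul_le_mul_of_nonneg_right ?_ (Finset.sum_nonneg fun j _ => sq_nonneg _))
  rw [Fintype.card_fin] at hb
  have h4 : 0 ≤ gf (Module.finrank ℝ ℬ) n := by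
    rw [gf]
    have : 0 ≤ max 1 (Real.log ((Module.finrank ℝ ℬ : ℝ) / (n : ℝ))) := le_trans zero_le_one (le_max_left _ _)
    positivity
  have h5 : ‖∑ i, ε i • A i‖ ^ 2 ≤ (10 ^ 5) ^ 2 * gf (Module.finrank ℝ ℬ) n := by
    calc ‖∑ i, ε i • A i‖ ^ 2 ≤ (10 ^ 5 * Real.sqrt (gf (Module.finrank ℝ ℬ) n)) ^ 2 :=
          pow_le_pow_left₀ (norm_nonneg _) hb 2
      _ = _ := by rw [mul_pow, Real.sq_sqrt h4]
  refine h5.trans ?_
  rw [gf] at h4 ⊢
  exact mul_le_mul_of_nonneg_right (by norm_num) h4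

end Pool.Agent.U437.SPN
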