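import Pool.Agent.Q98.SPN.Stm

/-!
# Project SPN (helper437): package CNT (helper211)
-/

set_option autoImplicit false

open scoped Matrix.Norms.L2Operator Matrix
open Finset

namespace Pool.Agent.U437.SPN

open Pool.Agent.Q98.SPN
open Pool.Agent.H172R2.GS (sg XX arrays)

namespace CNTAux

/-- the finite geometric sum is at most `exp (2 z)` for `0 < z ≤ 1/2` -/
theorem geom_le (q : ℕ) (z : ℝ) (h0 : 0 < z) (h1 : z ≤ 1 / 2) :
    ∑ j ∈ range (q + 1), z ^ j ≤ Real.exp (2 * z) := by
  have h2 : (∑ j ∈ range (q + 1), z ^ j) * (1 - z) ≤ 1 := by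
    have := geom_sum_mul_neg z (q + 1)
    rw [this]
    have : 0 ≤ z ^ (q + 1) := by positivity
    linarith
  have h3 : ∑ j ∈ range (q + 1), z ^ j ≤ 1 + 2 * z := by
    have h4 : (0 : ℝ) < 1 - z := by linarith
    have h5 : ∑ j ∈ range (q + 1), z ^ j ≤ 1 / (1 - z) := by
      rw [le_div_iff₀ h4]; exact h2
    refine h5.trans ?_
    rw [div_le_iff₀ h4]
    nlinarith
  refine h3.trans ?_
  have := Real.add_one_le_exp (2 * z)
  linarith

end CNTAux

theorem CNT_ok : S_CNT := by
  intro ι _ _ q z h0 h1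
  have h2 : ((arrays ι q).card : ℝ) * z ^ q ≤ ∑ r ∈ arrays ι q, ∏ i, z ^ (r i) := by
    rw [← nsmul_eq_mul, ← Finset.sum_const]
    apply Finset.sum_le_sum
    intro r hr
    rw [Finset.prod_pow_eq_pow_sum]
    have h3 : ∑ i, r i ≤ q := by
      have := (Finset.mem_filter.1 hr).2
      exact this
    exact pow_le_pow_of_le_one h0.le (by linarith) h3
  have h3 : ∑ r ∈ arrays ι q, ∏ i, z ^ (r i) ≤
      ∑ r ∈ Fintype.piFinset (fun _ : ι => range (q + 1)), ∏ i, z ^ (r i) := by
    apply Finset.sum_le_sum_of_subset_of_nonneg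
    · exact Finset.filter_subset _ _
    · intro r _ _
      exact Finset.prod_nonneg fun i _ => by positivity
  have h4 : ∑ r ∈ Fintype.piFinset (fun _ : ι => range (q + 1)), ∏ i, z ^ (r i) =
      ∏ _i : ι, ∑ j ∈ range (q + 1), z ^ j :=
    (Finset.prod_univ_sum (fun _ : ι => range (q + 1)) (fun _ j => z ^ j)).symm
  have h5 : ∏ _i : ι, ∑ j ∈ range (q + 1), z ^ j ≤ ∏ _i : ι, Real.exp (2 * z) := by
    apply Finset.prod_le_prod
    · intro i _
      exact Finset.sum_nonneg fun j _ => by positivity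
    · intro i _
      exact CNTAux.geom_le q z h0 h1
  have h6 : ∏ _i : ι, Real.exp (2 * z) = Real.exp (2 * z * Fintype.card ι) := by
    rw [Finset.prod_const, Finset.card_univ, ← Real.exp_nat_mul]
    congr 1
    ring
  calc ((arrays ι q).card : ℝ) * z ^ q ≤ _ := h2
    _ ≤ _ := h3
    _ = _ := h4
    _ ≤ _ := h5
    _ = _ := h6

end Pool.Agent.U437.SPN
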