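import Pool.Agent.Q98.SPN.Stm
set_option autoImplicit false
open scoped Matrix.Norms.L2Operator Matrix
open Finset
namespace Pool.Agent.U437.SPN
open Pool.Agent.Q98.SPN
open Pool.Agent.H172R2.GS (sg XX arrays)

namespace COLSAux

lemma nonneg {d : ℕ} {Q : Matrix (Fin d) (Fin d) ℂ} {l : Fin d → ℝ}
    (h : Qᴴ * Q = Matrix.diagonal (fun j => ((l j : ℝ) : ℂ))) (j : Fin d) : 0 ≤ l j := by
  have h1 : (Qᴴ * Q) j j = ((l j : ℝ) : ℂ) := by rw [h, Matrix.diagonal_apply_eq]
  rw [Matrix.mul_apply] at h1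
  have h2 : ∀ i, Qᴴ j i * Q i j = ((‖Q i j‖ ^ 2 : ℝ) : ℂ) := by
    intro i
    rw [Matrix.conjTranspose_apply, Complex.star_def, Complex.conj_mul']
    push_cast
    rfl
  rw [Finset.sum_congr rfl fun i _ => h2 i, ← Complex.ofReal_sum] at h1
  have h3 := Complex.ofReal_injective h1
  rw [← h3]
  positivity

end COLSAux

theorem COLS_ok : S_COLS := by
  intro d Q l b hb h r e he hl
  have h1 : (Q.submatrix id e)ᴴ * (Q.submatrix id e) =
      Matrix.diagonal (fun j => ((l (e j) : ℝ) : ℂ)) := by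
    have h2 : (Q.submatrix id e)ᴴ * (Q.submatrix id e) = (Qᴴ * Q).submatrix e e := by
      ext i j
      simp [Matrix.mul_apply]
    rw [h2, h]
    ext i j
    by_cases hij : i = j
    · subst hij
      simp
    · rw [Matrix.submatrix_apply, Matrix.diagonal_apply_ne _ (fun hh => hij (he hh)),
        Matrix.diagonal_apply_ne _ hij]
  have h3 := Matrix.l2_opNorm_conjTranspose_mul_self (Q.submatrix id e)
  rw [h1, Matrix.l2_opNorm_diagonal] at h3
  have h4 : ‖(fun j => ((l (e j) : ℝ) : ℂ))‖ ≤ b ^ 2 := by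
    rw [pi_norm_le_iff_of_nonneg (by positivity)]
    intro j
    rw [Complex.norm_real, Real.norm_of_nonneg (COLSAux.nonneg h (e j))]
    exact hl j
  rw [h3] at h4
  nlinarith [norm_nonneg (Q.submatrix id e)]

end Pool.Agent.U437.SPN
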