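import Pool.Agent.Q98.SPN.Stm
set_option autoImplicit false
open scoped Matrix.Norms.L2Operator Matrix
open Finset
namespace Pool.Agent.U437.SPN
open Pool.Agent.Q98.SPN
open Pool.Agent.H172R2.GS (sg XX arrays)

namespace COVAux

lemma sc_pos (m κ : ℕ) (hm : 0 < m) (hκ : 2 ≤ κ) : 0 < sc m κ := by
  unfold sc
  apply Real.sqrt_pos.2
  have h1 : (0:ℝ) < m := by exact_mod_cast hm
  have h2 : (0:ℝ) < κ := by exact_mod_cast (by omega : 0 < κ)
  positivity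

lemma exists_K (m κ : ℕ) (R : ℝ) (hm : 0 < m) (hκ : 2 ≤ κ) :
    ∃ K : ℕ, R < (4 ^ K * sc m κ ^ 2) ^ κ := by
  have hs := sc_pos m κ hm hκ
  have h1 : Filter.Tendsto (fun K : ℕ => ((4:ℝ) ^ K * sc m κ ^ 2) ^ κ)
      Filter.atTop Filter.atTop := by
    have h2 : Filter.Tendsto (fun x : ℝ => x ^ κ) Filter.atTop Filter.atTop :=
      Filter.tendsto_pow_atTop (by omega : κ ≠ 0)
    have h3 : Filter.Tendsto (fun K : ℕ => ((4:ℝ) ^ K * sc m κ ^ 2)) Filter.atTop Filter.atTop :=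
      Filter.Tendsto.atTop_mul_const (by positivity)
        (tendsto_pow_atTop_atTop_of_one_lt (by norm_num))
    exact h2.comp h3
  exact (h1.eventually_gt_atTop R).exists

lemma zz_pos (κ k : ℕ) : 0 < zz κ k := by
  unfold zz
  positivity

lemma zz_le (κ k : ℕ) : zz κ k ≤ 1 / 2 := by
  unfold zz
  have h1 : (1:ℝ) ≤ 2 ^ k := one_le_pow₀ (by norm_num)
  have h2 : (1:ℝ) ≤ Real.exp κ := Real.one_le_exp (by positivity)
  have h3 : (2:ℝ) ≤ 400 * 2 ^ k * Real.exp κ := by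
    have : (1:ℝ) ≤ 2 ^ k * Real.exp κ := one_le_mul_of_one_le_of_one_le h1 h2
    nlinarith
  exact one_div_le_one_div_of_le (by norm_num) h3

lemma card_le {ι : Type} [Fintype ι] (d : ι → ℕ) (N : ℝ) (hd : ∀ i, 0 < d i)
    (h : ((∑ i, d i ^ 2 : ℕ) : ℝ) ≤ N) : (Fintype.card ι : ℝ) ≤ N := by
  have h1 : Fintype.card ι ≤ ∑ i, d i ^ 2 := by
    calc Fintype.card ι = ∑ _i : ι, 1 := by simp
      _ ≤ _ := Finset.sum_le_sum (fun i _ => Nat.one_le_pow _ _ (hd i))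
  exact le_trans (by exact_mod_cast h1) h

lemma geo (s : ℝ) (hs : 0 < s) (K : ℕ) : ∑ k : Fin K, s / 2 ^ (k : ℕ) ≤ 2 * s := by
  have h1 : ∑ k : Fin K, s / 2 ^ (k : ℕ) = s * ∑ k ∈ range K, (1 / 2 : ℝ) ^ k := by
    rw [Finset.mul_sum, ← Finset.sum_range (fun k : ℕ => s / 2 ^ k)]
    refine Finset.sum_congr rfl fun k _ => ?_
    rw [one_div, inv_pow]
    rfl
  have h2 : ∑ k ∈ range K, (1 / 2 : ℝ) ^ k ≤ 2 := sum_geometric_two_le K
  rw [h1]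
  nlinarith

end COVAux

theorem COV_ok (hV : S_COVL) (hL : S_LEV) (hG : S_LOGC) (hN : S_NUM) : S_COV := by
  intro ι _ _ d m κ N hd hdN hm hκ hNm
  classical
  have hs := COVAux.sc_pos m κ hm hκ
  obtain ⟨K, hK⟩ := COVAux.exists_K m κ (2 * N * (2 * Real.exp 1 * κ * m) ^ κ) hm hκ
  have hL' : ∀ k : ℕ, ∃ F : Finset ((i : ι) → Matrix (Fin (d i)) (Fin (d i)) ℂ),
      (F.card : ℝ) * (zz κ k) ^ (qq m κ k) ≤
        Real.exp (2 * zz κ k * Fintype.card ι) * 5 ^ (2 * (4 * k + 5) * qq m κ k) ∧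
      ∀ (r : ι → ℕ) (W V : (i : ι) → Matrix (Fin (d i)) (Fin (r i)) ℂ),
        ∑ i, r i ≤ qq m κ k → ∑ i, d i * r i ≤ qq m κ k →
        (∀ i, ‖W i‖ ≤ 2 ^ (k + 1) * sc m κ) → (∀ i, ‖V i‖ ≤ 1) →
        ∃ Z ∈ F, ∀ i, ‖W i * (V i)ᴴ - Z i‖ ≤ sc m κ / 2 ^ k := fun k =>
    hL ι d (qq m κ k) k (zz κ k) (sc m κ) (COVAux.zz_pos κ k) (COVAux.zz_le κ k) hs
  choose F hF1 hF2 using hL'
  refine ⟨(Fintype.piFinset (fun k : Fin K => F k)).image (fun Z i => ∑ k, Z k i), ?_, ?_⟩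
  · calc (((Fintype.piFinset (fun k : Fin K => F k)).image (fun Z i => ∑ k, Z k i)).card : ℝ)
        ≤ ((Fintype.piFinset (fun k : Fin K => F k)).card : ℝ) := by
          exact_mod_cast Finset.card_image_le
      _ = ∏ k : Fin K, ((F k).card : ℝ) := by rw [Fintype.card_piFinset]; push_cast; rfl
      _ ≤ ∏ k : Fin K, Real.exp ((m:ℝ) / (200 * 2 ^ (k:ℕ)) +
            m / 16 ^ (k:ℕ) * (2 * (22.1 + 13.6 * ((k:ℕ):ℝ) + κ) / 100 ^ κ)) := by
          apply Finset.prod_le_prod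
          · intro k _
            positivity
          · intro k _
            exact hG m κ k (Fintype.card ι) _ (by positivity)
              (le_trans (COVAux.card_le d N hd hdN) hNm) (by positivity) (hF1 k)
      _ = Real.exp (∑ k : Fin K, ((m:ℝ) / (200 * 2 ^ (k:ℕ)) +
            m / 16 ^ (k:ℕ) * (2 * (22.1 + 13.6 * ((k:ℕ):ℝ) + κ) / 100 ^ κ))) :=
          (Real.exp_sum _ _).symm
      _ = Real.exp (∑ k ∈ range K, ((m:ℝ) / (200 * 2 ^ k) +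
            m / 16 ^ k * (2 * (22.1 + 13.6 * (k:ℝ) + κ) / 100 ^ κ))) := by
          rw [Finset.sum_range]
      _ ≤ Real.exp ((m : ℝ) / 50) := Real.exp_le_exp.2 (hN m κ K hκ)
  · intro Y hY
    obtain ⟨r, W, V, h1, h2, h3⟩ := hV ι d m κ K N hd hm hκ hNm hK Y hY
    have h4 : ∀ k : Fin K, ∃ Z ∈ F k, ∀ i,
        ‖W k i * (V k i)ᴴ - Z i‖ ≤ sc m κ / 2 ^ (k:ℕ) := by
      intro k
      have hk : ∑ i, d i * r k i ≤ qq m κ k := h3 k (Finset.mem_range.2 k.2)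
      refine hF2 k (r k) (W k) (V k) ?_ hk (fun i => (h2 k i).1) (fun i => (h2 k i).2)
      exact le_trans (Finset.sum_le_sum fun i _ => Nat.le_mul_of_pos_left _ (hd i)) hk
    choose Z hZ1 hZ2 using h4
    refine ⟨fun i => ∑ k, Z k i,
      Finset.mem_image.2 ⟨Z, Fintype.mem_piFinset.2 hZ1, rfl⟩, fun i => ?_⟩
    have e : Y i - ∑ k, Z k i = (Y i - ∑ k ∈ range K, W k i * (V k i)ᴴ) +
        ∑ k : Fin K, (W k i * (V k i)ᴴ - Z k i) := by
      rw [Finset.sum_sub_distrib, Finset.sum_range]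
      abel
    have e' : Y i - (fun i => ∑ k, Z k i) i = (Y i - ∑ k ∈ range K, W k i * (V k i)ᴴ) +
        ∑ k : Fin K, (W k i * (V k i)ᴴ - Z k i) := e
    rw [e']
    calc _ ≤ ‖Y i - ∑ k ∈ range K, W k i * (V k i)ᴴ‖ +
          ‖∑ k : Fin K, (W k i * (V k i)ᴴ - Z k i)‖ := norm_add_le _ _
      _ ≤ sc m κ + ∑ k : Fin K, sc m κ / 2 ^ (k:ℕ) :=
          add_le_add (h1 i) (norm_sum_le_of_le _ fun k _ => hZ2 k i)
      _ ≤ sc m κ + 2 * sc m κ := add_le_add_right (COVAux.geo _ hs K) _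
      _ = 3 * sc m κ := by ring

end Pool.Agent.U437.SPN
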