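import Pool.Agent.Q98.SPN.Stm

set_option autoImplicit false
open scoped Matrix.Norms.L2Operator Matrix
open Finset
namespace Pool.Agent.U437.SPN
open Pool.Agent.Q98.SPN
open Pool.Agent.H172R2.GS (sg XX arrays)

namespace COVLAux

/-- the arithmetic of one level -/
theorem level (m κ k : ℕ) (N Q : ℝ) (hm : 0 < m) (hκ : 2 ≤ κ) (hN : N ≤ m * Real.exp κ)
    (hQ : Q * (4 ^ k * sc m κ ^ 2) ^ κ ≤ 2 * N * (2 * Real.exp 1 * κ * m) ^ κ) (hQ0 : 0 ≤ Q) :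
    Q ≤ 2 * (m : ℝ) / (16 ^ k * 100 ^ κ) := by
  have hm' : (0 : ℝ) < m := by exact_mod_cast hm
  have hκ' : (0 : ℝ) < κ := by exact_mod_cast (by omega : 0 < κ)
  have he : (0 : ℝ) < Real.exp 1 := Real.exp_pos 1
  have hM : (0 : ℝ) < 2 * Real.exp 1 * κ * m := by positivity
  have hs : sc m κ ^ 2 = 100 * Real.exp 1 * (2 * Real.exp 1 * κ * m) := by
    have h2 : Real.exp 2 = Real.exp 1 * Real.exp 1 := by
      rw [← Real.exp_add]; norm_num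
    rw [sc, Real.sq_sqrt (by positivity), h2]; ring
  have h1 : (4 ^ k * sc m κ ^ 2) ^ κ =
      ((4 : ℝ) ^ k) ^ κ * 100 ^ κ * Real.exp κ * (2 * Real.exp 1 * κ * m) ^ κ := by
    rw [hs]
    have h3 : Real.exp κ = (Real.exp 1) ^ κ := by
      rw [← Real.exp_nat_mul]; simp
    rw [h3]
    rw [show (4 : ℝ) ^ k * (100 * Real.exp 1 * (2 * Real.exp 1 * κ * m)) =
      4 ^ k * 100 * Real.exp 1 * (2 * Real.exp 1 * κ * m) by ring]
    rw [mul_pow, mul_pow, mul_pow]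
  have hMp : (0 : ℝ) < (2 * Real.exp 1 * κ * m) ^ κ := by positivity
  rw [h1] at hQ
  have h4 : Q * (((4 : ℝ) ^ k) ^ κ * 100 ^ κ * Real.exp κ) ≤ 2 * N := by
    have : Q * (((4 : ℝ) ^ k) ^ κ * 100 ^ κ * Real.exp κ) * (2 * Real.exp 1 * κ * m) ^ κ ≤
        2 * N * (2 * Real.exp 1 * κ * m) ^ κ := by
      calc _ = Q * (((4 : ℝ) ^ k) ^ κ * 100 ^ κ * Real.exp κ * (2 * Real.exp 1 * κ * m) ^ κ) := by ring
        _ ≤ _ := hQ
    exact le_of_mul_le_mul_right this hMp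
  have h5 : Q * (((4 : ℝ) ^ k) ^ κ * 100 ^ κ) ≤ 2 * m := by
    have : Q * (((4 : ℝ) ^ k) ^ κ * 100 ^ κ) * Real.exp κ ≤ 2 * m * Real.exp κ := by
      calc _ = Q * (((4 : ℝ) ^ k) ^ κ * 100 ^ κ * Real.exp κ) := by ring
        _ ≤ 2 * N := h4
        _ ≤ 2 * (m * Real.exp κ) := by linarith
        _ = _ := by ring
    exact le_of_mul_le_mul_right this (Real.exp_pos _)
  have h6 : (16 : ℝ) ^ k ≤ ((4 : ℝ) ^ k) ^ κ := by
    calc (16 : ℝ) ^ k = ((4 : ℝ) ^ k) ^ 2 := by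
          rw [← pow_mul, mul_comm k 2, pow_mul]; norm_num
      _ ≤ ((4 : ℝ) ^ k) ^ κ := pow_le_pow_right₀ (one_le_pow₀ (by norm_num)) hκ
  rw [le_div_iff₀ (by positivity)]
  calc Q * (16 ^ k * 100 ^ κ) ≤ Q * (((4 : ℝ) ^ k) ^ κ * 100 ^ κ) := by gcongr
    _ ≤ 2 * m := h5

end COVLAux

theorem COVL_ok (hD : S_DEC) (hT : S_TKN) : S_COVL := by
  intro ι _ _ d m κ K N hd hm hκ hN hK Y hY
  have hm' : (0 : ℝ) < m := by exact_mod_cast hm
  have hκ' : (0 : ℝ) < κ := by exact_mod_cast (by omega : 0 < κ)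
  have hs : 0 < sc m κ := by
    rw [sc]; exact Real.sqrt_pos.2 (by positivity)
  have hle : ∀ i, tk κ (Y i) ≤ ∑ i, (d i : ℝ) * tk κ (Y i) := by
    intro i
    have h0 : ∀ j ∈ (univ : Finset ι), 0 ≤ (d j : ℝ) * tk κ (Y j) := fun j _ =>
      mul_nonneg (Nat.cast_nonneg _) (hT _ _ _)
    calc tk κ (Y i) = 1 * tk κ (Y i) := (one_mul _).symm
      _ ≤ (d i : ℝ) * tk κ (Y i) := by
          apply mul_le_mul_of_nonneg_right _ (hT _ _ _)
          exact_mod_cast hd i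
      _ ≤ _ := Finset.single_le_sum h0 (Finset.mem_univ i)
  have hdec : ∀ i, ∃ (r : ℕ → ℕ) (W V : (k : ℕ) → Matrix (Fin (d i)) (Fin (r k)) ℂ),
      ‖Y i - ∑ k ∈ range K, W k * (V k)ᴴ‖ ≤ sc m κ ∧
      (∀ k, ‖W k‖ ≤ 2 ^ (k + 1) * sc m κ ∧ ‖V k‖ ≤ 1) ∧
      ∑ k ∈ range K, (r k : ℝ) * (4 ^ k * sc m κ ^ 2) ^ κ ≤ tk κ (Y i) := fun i =>
    hD (d i) (Y i) (sc m κ) K κ hs (by omega) (lt_of_le_of_lt ((hle i).trans hY) hK)
  choose r W V h1 h2 h3 using hdec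
  refine ⟨fun k i => r i k, fun k i => W i k, fun k i => V i k, h1, fun k i => h2 i k, ?_⟩
  intro k hk
  rw [qq]
  apply Nat.le_floor
  push_cast
  apply COVLAux.level m κ k N _ hm hκ hN
  · refine le_trans ?_ hY
    rw [Finset.sum_mul]
    apply Finset.sum_le_sum
    intro i _
    rw [mul_assoc]
    apply mul_le_mul_of_nonneg_left _ (Nat.cast_nonneg _)
    refine le_trans ?_ (h3 i)
    exact Finset.single_le_sum (f := fun k => (r i k : ℝ) * (4 ^ k * sc m κ ^ 2) ^ κ)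
      (fun k _ => by positivity) hk
  · positivity

end Pool.Agent.U437.SPN
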