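import Pool.Agent.Q98.SPN.Stm
set_option autoImplicit false
open scoped Matrix.Norms.L2Operator Matrix
open Finset
namespace Pool.Agent.U437.SPN
open Pool.Agent.Q98.SPN
open Pool.Agent.H172R2.GS (sg XX arrays)

namespace DECAux

/-- the level set `k` of the numbers `l j` -/
noncomputable def lev {d : ℕ} (l : Fin d → ℝ) (s : ℝ) (k : ℕ) : Finset (Fin d) :=
  univ.filter fun j => (2 ^ k * s) ^ 2 < l j ∧ l j ≤ (2 ^ (k + 1) * s) ^ 2

/-- the indices of the small numbers `l j` -/
noncomputable def low {d : ℕ} (l : Fin d → ℝ) (s : ℝ) : Finset (Fin d) :=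
  univ.filter fun j => l j ≤ s ^ 2

/-- an enumeration of a finite set -/
noncomputable def en {d : ℕ} (S : Finset (Fin d)) (t : Fin S.card) : Fin d := (S.equivFin.symm t : Fin d)

lemma en_inj {d : ℕ} (S : Finset (Fin d)) : Function.Injective (en S) :=
  Subtype.val_injective.comp S.equivFin.symm.injective

lemma en_mem {d : ℕ} (S : Finset (Fin d)) (t : Fin S.card) : en S t ∈ S := (S.equivFin.symm t).2

lemma sum_en {d : ℕ} {M : Type} [AddCommMonoid M] (S : Finset (Fin d)) (f : Fin d → M) :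
    ∑ t, f (en S t) = ∑ j ∈ S, f j := by
  rw [← Finset.sum_coe_sort S f, ← Equiv.sum_comp S.equivFin.symm]
  rfl

lemma mul_en {d : ℕ} (A B : Matrix (Fin d) (Fin d) ℂ) (S : Finset (Fin d)) (a b : Fin d) :
    (A.submatrix id (en S) * (B.submatrix id (en S))ᴴ) a b = ∑ j ∈ S, A a j * star (B b j) := by
  rw [Matrix.mul_apply, ← sum_en S]
  rfl

lemma one_num {M : Type} [AddCommMonoid M] (x s : ℝ) (hs : 0 < s) (f : M) (K : ℕ) :
    (if x ≤ s ^ 2 then f else 0) +
      ∑ k ∈ range K, (if (2 ^ k * s) ^ 2 < x ∧ x ≤ (2 ^ (k + 1) * s) ^ 2 then f else 0) =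
      if x ≤ (2 ^ K * s) ^ 2 then f else 0 := by
  induction K with
  | zero => simp
  | succ K ih =>
    rw [sum_range_succ, ← add_assoc, ih]
    have h1 : (2 ^ K * s) ^ 2 ≤ (2 ^ (K + 1) * s) ^ 2 := by
      apply pow_le_pow_left₀ (by positivity)
      apply mul_le_mul_of_nonneg_right _ hs.le
      exact pow_le_pow_right₀ (by norm_num) (Nat.le_succ K)
    by_cases h2 : x ≤ (2 ^ K * s) ^ 2
    · rw [if_pos h2, if_neg (fun h => absurd h2 (not_le.2 h.1)), add_zero, if_pos (h2.trans h1)]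
    · rw [if_neg h2, zero_add]
      by_cases h3 : x ≤ (2 ^ (K + 1) * s) ^ 2
      · rw [if_pos ⟨not_le.1 h2, h3⟩, if_pos h3]
      · rw [if_neg (fun h => h3 h.2), if_neg h3]

lemma split {d : ℕ} {M : Type} [AddCommMonoid M] (l : Fin d → ℝ) (s : ℝ) (hs : 0 < s) (K : ℕ)
    (hl : ∀ j, l j ≤ (2 ^ K * s) ^ 2) (f : Fin d → M) :
    ∑ j, f j = ∑ j ∈ low l s, f j + ∑ k ∈ range K, ∑ j ∈ lev l s k, f j := by
  unfold low lev
  simp only [sum_filter]
  rw [sum_comm, ← sum_add_distrib]
  refine sum_congr rfl fun j _ => ?_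
  rw [one_num (l j) s hs (f j) K, if_pos (hl j)]

end DECAux

open DECAux

theorem DEC_ok (hS : S_SPEC) (hC : S_COLS) : S_DEC := by
  intro d Y s K κ hs hκ htk
  obtain ⟨U, l, hU1, hU2, hl0, hQ, htr⟩ := hS d Y
  have hlK : ∀ j, l j ≤ (2 ^ K * s) ^ 2 := by
    intro j
    have h1 : l j ^ κ < (4 ^ K * s ^ 2) ^ κ := by
      refine lt_of_le_of_lt ?_ htk
      rw [htr κ]
      exact single_le_sum (f := fun j => l j ^ κ) (fun i _ => pow_nonneg (hl0 i) κ) (mem_univ j)
    have h2 : l j < 4 ^ K * s ^ 2 := lt_of_pow_lt_pow_left₀ κ (by positivity) h1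
    have h3 : (4 : ℝ) ^ K * s ^ 2 = (2 ^ K * s) ^ 2 := by
      rw [mul_pow, ← pow_mul, mul_comm K 2, pow_mul]
      norm_num
    rw [← h3]
    exact h2.le
  have hU2' : Uᴴ * U = Matrix.diagonal (fun _ : Fin d => (((1 : ℝ)) : ℂ)) := by
    rw [hU2]
    simp
  have hV : ∀ S : Finset (Fin d), ‖U.submatrix id (en S)‖ ≤ 1 := fun S =>
    hC d U (fun _ => 1) 1 zero_le_one hU2' S.card (en S) (en_inj S) (fun _ => by norm_num)
  refine ⟨fun k => (lev l s k).card, fun k => (Y * U).submatrix id (en (lev l s k)),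
    fun k => U.submatrix id (en (lev l s k)), ?_, fun k => ⟨?_, hV _⟩, ?_⟩
  · have key : Y - ∑ k ∈ range K, (Y * U).submatrix id (en (lev l s k)) *
        (U.submatrix id (en (lev l s k)))ᴴ =
        (Y * U).submatrix id (en (low l s)) * (U.submatrix id (en (low l s)))ᴴ := by
      rw [sub_eq_iff_eq_add]
      ext a b
      rw [Matrix.add_apply, Matrix.sum_apply, mul_en]
      simp only [mul_en]
      rw [← split l s hs K hlK (fun j => (Y * U) a j * star (U b j))]
      have h1 : Y = (Y * U) * Uᴴ := by rw [Matrix.mul_assoc, hU1, Matrix.mul_one]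
      conv_lhs => rw [h1]
      rw [Matrix.mul_apply]
      rfl
    rw [key]
    refine (Matrix.l2_opNorm_mul _ _).trans ?_
    rw [Matrix.l2_opNorm_conjTranspose]
    have h1 : ‖(Y * U).submatrix id (en (low l s))‖ ≤ s :=
      hC d (Y * U) l s hs.le hQ _ (en (low l s)) (en_inj _) (fun j => by
        have h2 := en_mem (low l s) j
        unfold low at h2
        rw [mem_filter] at h2
        exact h2.2)
    calc _ ≤ s * 1 := mul_le_mul h1 (hV _) (norm_nonneg _) hs.le
      _ = s := mul_one s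
  · refine hC d (Y * U) l _ (by positivity) hQ _ (en (lev l s k)) (en_inj _) (fun j => ?_)
    have h2 := en_mem (lev l s k) j
    unfold lev at h2
    rw [mem_filter] at h2
    exact h2.2.2
  · rw [htr κ, split l s hs K hlK (fun j => l j ^ κ)]
    refine le_add_of_nonneg_of_le (sum_nonneg fun j _ => pow_nonneg (hl0 j) κ) ?_
    refine sum_le_sum fun k _ => ?_
    rw [← nsmul_eq_mul, ← sum_const]
    refine sum_le_sum fun j hj => ?_
    unfold lev at hj
    rw [mem_filter] at hj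
    apply pow_le_pow_left₀ (by positivity)
    have h3 : (4 : ℝ) ^ k * s ^ 2 = (2 ^ k * s) ^ 2 := by
      rw [mul_pow, ← pow_mul, mul_comm k 2, pow_mul]
      norm_num
    rw [h3]
    exact hj.2.1.le

end Pool.Agent.U437.SPN
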