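import Mathlib

/-!
# Project SPN: the operator norm of a real matrix and of its complexification

`norm_map_ofReal`: the `L²` operator norm of a real matrix does not change when it is read as a complex matrix.
-/

set_option autoImplicit false

open scoped Matrix.Norms.L2Operator Matrix
open Finset

namespace Pool.Agent.U437.SPN

variable {𝕜 : Type*} [RCLike 𝕜] {m n : Type*} [Fintype m] [Fintype n] [DecidableEq n]

theorem sum_sq_mulVec_le (M : Matrix m n 𝕜) (v : n → 𝕜) :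
    ∑ i, ‖(M *ᵥ v) i‖ ^ 2 ≤ ‖M‖ ^ 2 * ∑ j, ‖v j‖ ^ 2 := by
  have h := Matrix.l2_opNorm_mulVec M (WithLp.toLp 2 v)
  have h2 := pow_le_pow_left₀ (norm_nonneg _) h 2
  rw [mul_pow, EuclideanSpace.norm_sq_eq, EuclideanSpace.norm_sq_eq] at h2
  simpa using h2

theorem norm_le_of_sum_sq (M : Matrix m n 𝕜) (c : ℝ) (hc : 0 ≤ c)
    (h : ∀ v : n → 𝕜, ∑ i, ‖(M *ᵥ v) i‖ ^ 2 ≤ c ^ 2 * ∑ j, ‖v j‖ ^ 2) : ‖M‖ ≤ c := by
  rw [Matrix.l2_opNorm_def]
  refine ContinuousLinearMap.opNorm_le_bound _ hc fun x => ?_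
  have h1 := h x.ofLp
  have : ‖(Matrix.toEuclideanLin (𝕜 := 𝕜) (m := m) (n := n) ≪≫ₗ LinearMap.toContinuousLinearMap) M x‖ ^ 2 ≤
      (c * ‖x‖) ^ 2 := by
    rw [mul_pow, EuclideanSpace.norm_sq_eq, EuclideanSpace.norm_sq_eq]
    simpa using h1
  exact le_of_sq_le_sq this (by positivity)

theorem norm_map_ofReal (M : Matrix m n ℝ) : ‖M.map (fun x : ℝ => (x : ℂ))‖ = ‖M‖ := by
  apply le_antisymm
  · refine norm_le_of_sum_sq _ _ (norm_nonneg _) fun v => ?_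
    have key : ∀ i, ‖(M.map (fun x : ℝ => (x : ℂ)) *ᵥ v) i‖ ^ 2 =
        ‖(M *ᵥ fun j => (v j).re) i‖ ^ 2 + ‖(M *ᵥ fun j => (v j).im) i‖ ^ 2 := by
      intro i
      rw [Complex.sq_norm, Complex.normSq_apply]
      have hre : ((M.map (fun x : ℝ => (x : ℂ)) *ᵥ v) i).re = (M *ᵥ fun j => (v j).re) i := by
        simp [Matrix.mulVec, dotProduct, Complex.re_sum]
      have him : ((M.map (fun x : ℝ => (x : ℂ)) *ᵥ v) i).im = (M *ᵥ fun j => (v j).im) i := by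
        simp [Matrix.mulVec, dotProduct, Complex.im_sum]
      rw [hre, him, Real.norm_eq_abs, Real.norm_eq_abs, sq_abs, sq_abs]
      ring
    calc ∑ i, ‖(M.map (fun x : ℝ => (x : ℂ)) *ᵥ v) i‖ ^ 2
        = ∑ i, ‖(M *ᵥ fun j => (v j).re) i‖ ^ 2 + ∑ i, ‖(M *ᵥ fun j => (v j).im) i‖ ^ 2 := by
          rw [← Finset.sum_add_distrib]; exact Finset.sum_congr rfl fun i _ => key i
      _ ≤ ‖M‖ ^ 2 * ∑ j, ‖(v j).re‖ ^ 2 + ‖M‖ ^ 2 * ∑ j, ‖(v j).im‖ ^ 2 :=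
          add_le_add (sum_sq_mulVec_le M _) (sum_sq_mulVec_le M _)
      _ = ‖M‖ ^ 2 * ∑ j, ‖v j‖ ^ 2 := by
          rw [← mul_add, ← Finset.sum_add_distrib]
          congr 1
          refine Finset.sum_congr rfl fun j _ => ?_
          rw [Complex.sq_norm, Complex.normSq_apply, Real.norm_eq_abs, Real.norm_eq_abs, sq_abs, sq_abs]
          ring
  · refine norm_le_of_sum_sq _ _ (norm_nonneg _) fun v => ?_
    have h := sum_sq_mulVec_le (M.map (fun x : ℝ => (x : ℂ))) (fun j => (v j : ℂ))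
    have e1 : ∀ i, ‖(M.map (fun x : ℝ => (x : ℂ)) *ᵥ fun j => (v j : ℂ)) i‖ = ‖(M *ᵥ v) i‖ := by
      intro i
      have : (M.map (fun x : ℝ => (x : ℂ)) *ᵥ fun j => (v j : ℂ)) i = (((M *ᵥ v) i : ℝ) : ℂ) := by
        simp [Matrix.mulVec, dotProduct]
      rw [this, Complex.norm_real]
    have e2 : ∀ j, ‖(v j : ℂ)‖ = ‖v j‖ := fun j => Complex.norm_real _
    simpa only [e1, e2] using h

end Pool.Agent.U437.SPN
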