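import Pool.Agent.Q98.SPN.Stm
import Pool.Agent.U437.SPN.RealNorm

/-!
# Project SPN: final assembly

From `S_MAIN`, `S_MOD`, `S_NRM`: the matrix Spencer bound for matrices in a group algebra, for all finite groups, and for
block diagonal matrices.
-/

set_option autoImplicit false

open scoped Matrix.Norms.L2Operator Matrix
open Finset

namespace Pool.Agent.U437.SPN

open Pool.Agent.Q98.SPN
open Pool.Agent.H172R2.GS (sg XX arrays)

/-- `Λ(d,n) = max 1 (√(log (d/n)))` (the square root of a negative number is `0`) -/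
noncomputable def Lam (d n : ℝ) : ℝ := max 1 (Real.sqrt (Real.log (d / n)))

theorem sqrt_gf (N n : ℝ) (hn : 0 ≤ n) : Real.sqrt (gf N n) = Real.sqrt n * Lam N n := by
  rw [gf, Real.sqrt_mul hn, Lam]
  congr 1
  have hmono : Monotone Real.sqrt := fun a b h => Real.sqrt_le_sqrt h
  rw [hmono.map_max, Real.sqrt_one]

section groups

theorem conv_sum {G : Type} [Group G] {J : Type} [Fintype J] (a : J → ℂ) (x : J → G → ℂ) :
    conv (fun g => ∑ j, a j * x j g) = ∑ j, a j • conv (x j) := by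
  ext h k
  simp [conv, Matrix.sum_apply]

theorem elt_sum {G : Type} [Group G] [Fintype G] {J : Type} [Fintype J] (a : J → ℂ) (x : J → G → ℂ) :
    elt (fun g => ∑ j, a j * x j g) = ∑ j, a j • elt (x j) := by
  simp only [elt, Finset.smul_sum]
  rw [Finset.sum_comm]
  refine Finset.sum_congr rfl fun g _ => ?_
  have h1 : MonoidAlgebra.single g (∑ j, a j * x j g) =
      ∑ j, (MonoidAlgebra.single g (a j * x j g) : MonoidAlgebra ℂ G) :=
    map_sum (MonoidAlgebra.singleAddHom g) _ _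
  rw [h1]
  refine Finset.sum_congr rfl fun j _ => ?_
  rw [MonoidAlgebra.smul_single, smul_eq_mul]

end groups

/-- the bound for contractions in the complex group algebra -/
theorem alg_bound (hMain : S_MAIN) (hMod : S_MOD) (hN : S_NRM) (G : Type) [Group G] [Fintype G] [DecidableEq G]
    (J : Type) [Fintype J] [DecidableEq J] (x : J → G → ℂ) (hx : ∀ j, ‖conv (x j)‖ ≤ 1) :
    ∃ ε : J → ℝ, (∀ j, ε j = 1 ∨ ε j = -1) ∧
      ‖∑ j, ((ε j : ℝ) : ℂ) • conv (x j)‖ ≤
        10 ^ 5 * (Real.sqrt (Fintype.card J) * Lam (Fintype.card G) (Fintype.card J)) := by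
  obtain ⟨k, d, Ψ, hΨ, hd⟩ := hMod G
  have hcard : (0 : ℝ) < (Fintype.card G : ℝ) := by exact_mod_cast Fintype.card_pos
  obtain ⟨ε, hε, hb⟩ := hMain (Fin k) d (Fintype.card G : ℝ) hcard (by rw [hd]) J
    (fun j i => Ψ (elt (x j)) i) (fun j i => ((hN G k d Ψ hΨ (x j)).2 i).trans (hx j))
  refine ⟨ε, hε, ?_⟩
  rw [← sqrt_gf _ _ (Nat.cast_nonneg _), ← conv_sum]
  refine (hN G k d Ψ hΨ _).1 _ (by positivity) fun i => ?_
  rw [elt_sum, map_sum, Finset.sum_apply]
  have : ∀ j, Ψ (((ε j : ℝ) : ℂ) • elt (x j)) i = ((ε j : ℝ) : ℂ) • Ψ (elt (x j)) i := by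
    intro j
    rw [map_smul, Pi.smul_apply]
  simp only [this]
  exact hb i

/-- the bound for real matrices indexed by a finite group and invariant under right translations -/
theorem real_bound (hMain : S_MAIN) (hMod : S_MOD) (hN : S_NRM) (G : Type) [Group G] [Fintype G] [DecidableEq G]
    (J : Type) [Fintype J] [DecidableEq J] (A : J → Matrix G G ℝ) (hA : ∀ j, ‖A j‖ ≤ 1)
    (hinv : ∀ j (h k g : G), A j (h * g) (k * g) = A j h k) :
    ∃ ε : J → ℝ, (∀ j, ε j = 1 ∨ ε j = -1) ∧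
      ‖∑ j, ε j • A j‖ ≤
        10 ^ 5 * (Real.sqrt (Fintype.card J) * Lam (Fintype.card G) (Fintype.card J)) := by
  have hconv : ∀ j, conv (fun g => ((A j g 1 : ℝ) : ℂ)) = (A j).map (fun x : ℝ => (x : ℂ)) := by
    intro j
    ext h k
    have := hinv j (h * k⁻¹) 1 k
    simp only [inv_mul_cancel_right, one_mul] at this
    simp [conv, this]
  obtain ⟨ε, hε, hb⟩ := alg_bound hMain hMod hN G J (fun j g => ((A j g 1 : ℝ) : ℂ))
    (fun j => by rw [hconv j, norm_map_ofReal]; exact hA j)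
  refine ⟨ε, hε, ?_⟩
  have e : (∑ j, ε j • A j).map (fun x : ℝ => (x : ℂ)) =
      ∑ j, ((ε j : ℝ) : ℂ) • conv (fun g => ((A j g 1 : ℝ) : ℂ)) := by
    ext h k
    simp only [hconv, Matrix.map_apply, Matrix.sum_apply, Matrix.smul_apply, smul_eq_mul]
    push_cast
    rfl
  rw [← norm_map_ofReal, e]
  exact hb

/-- the left regular representation: `ρ(g)_{h,k} = 1` if `h = g k`, and `0` otherwise -/
def leftReg {G : Type} [Group G] [DecidableEq G] (g : G) : Matrix G G ℝ :=
  Matrix.of fun h k => if h = g * k then 1 else 0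

theorem leftReg_mulVec {G : Type} [Group G] [Fintype G] [DecidableEq G] (g : G) (v : G → ℝ) (h : G) :
    (leftReg g *ᵥ v) h = v (g⁻¹ * h) := by
  simp only [leftReg, Matrix.mulVec, dotProduct, Matrix.of_apply, ite_mul, one_mul, zero_mul]
  rw [Finset.sum_eq_single (g⁻¹ * h)]
  · simp
  · intro b _ hb
    rw [if_neg]
    rintro rfl
    exact hb (by simp)
  · intro h'
    exact absurd (Finset.mem_univ _) h'

theorem norm_leftReg_le {G : Type} [Group G] [Fintype G] [DecidableEq G] (g : G) : ‖leftReg g‖ ≤ 1 := by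
  refine norm_le_of_sum_sq _ _ zero_le_one fun v => ?_
  simp only [leftReg_mulVec]
  rw [one_pow, one_mul]
  exact le_of_eq (Equiv.sum_comp (Equiv.mulLeft g⁻¹) (fun h => ‖v h‖ ^ 2))

/-- group Spencer with bounded coefficients -/
theorem group_bound (hMain : S_MAIN) (hMod : S_MOD) (hN : S_NRM) (G : Type) [Group G] [Fintype G] [DecidableEq G]
    (c : G → ℝ) (hc : ∀ g, |c g| ≤ 1) :
    ∃ ε : G → ℝ, (∀ g, ε g = 1 ∨ ε g = -1) ∧
      ‖∑ g, (ε g * c g) • leftReg g‖ ≤ 10 ^ 5 * Real.sqrt (Fintype.card G) := by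
  obtain ⟨ε, hε, hb⟩ := real_bound hMain hMod hN G G (fun g => c g • leftReg g)
    (fun g => by
      rw [norm_smul, Real.norm_eq_abs]
      exact mul_le_one₀ (hc g) (norm_nonneg _) (norm_leftReg_le g))
    (fun j h k g => by simp [leftReg, ← mul_assoc])
  refine ⟨ε, hε, ?_⟩
  have hL : Lam (Fintype.card G) (Fintype.card G) = 1 := by
    have h0 : (Fintype.card G : ℝ) ≠ 0 := by exact_mod_cast Fintype.card_ne_zero
    rw [Lam, div_self h0, Real.log_one, Real.sqrt_zero]
    exact max_eq_left zero_le_one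
  rw [hL, mul_one] at hb
  simpa only [smul_smul] using hb

/-- the bound for real block diagonal matrices -/
theorem block_bound (hMain : S_MAIN) (ι : Type) [Fintype ι] [DecidableEq ι] (d : ι → ℕ)
    (J : Type) [Fintype J] [DecidableEq J] (A : J → (i : ι) → Matrix (Fin (d i)) (Fin (d i)) ℝ)
    (hA : ∀ j i, ‖A j i‖ ≤ 1) :
    ∃ ε : J → ℝ, (∀ j, ε j = 1 ∨ ε j = -1) ∧
      ∀ i, ‖∑ j, ε j • A j i‖ ≤
        10 ^ 5 * (Real.sqrt (Fintype.card J) * Lam ((∑ i, d i ^ 2 : ℕ) : ℝ) (Fintype.card J)) := by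
  rcases Nat.eq_zero_or_pos (∑ i, d i ^ 2) with h0 | hpos
  · refine ⟨fun _ => 1, fun _ => Or.inl rfl, fun i => ?_⟩
    have hd : d i = 0 := by
      have := (Finset.sum_eq_zero_iff.mp h0) i (Finset.mem_univ i)
      exact pow_eq_zero_iff (two_ne_zero) |>.mp this
    have hz : (∑ j, (1 : ℝ) • A j i) = 0 := by
      ext a b
      exact absurd a.2 (by simp [hd])
    rw [hz, norm_zero]
    have : 0 ≤ Lam ((∑ i, d i ^ 2 : ℕ) : ℝ) (Fintype.card J) := le_trans zero_le_one (le_max_left _ _)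
    positivity
  · obtain ⟨ε, hε, hb⟩ := hMain ι d ((∑ i, d i ^ 2 : ℕ) : ℝ) (by exact_mod_cast hpos) le_rfl J
      (fun j i => (A j i).map (fun x : ℝ => (x : ℂ))) (fun j i => by rw [norm_map_ofReal]; exact hA j i)
    refine ⟨ε, hε, fun i => ?_⟩
    rw [← sqrt_gf _ _ (Nat.cast_nonneg _), ← norm_map_ofReal]
    have e : (∑ j, ε j • A j i).map (fun x : ℝ => (x : ℂ)) =
        ∑ j, ((ε j : ℝ) : ℂ) • (A j i).map (fun x : ℝ => (x : ℂ)) := by
      ext h k
      simp only [Matrix.map_apply, Matrix.sum_apply, Matrix.smul_apply, smul_eq_mul]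
      push_cast
      rfl
    rw [e]
    exact hb i

end Pool.Agent.U437.SPN
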