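import Pool.Agent.Q98.SPN.Stm
set_option autoImplicit false
open scoped Matrix.Norms.L2Operator Matrix
open Finset
namespace Pool.Agent.U437.SPN
open Pool.Agent.Q98.SPN
open Pool.Agent.H172R2.GS (sg XX arrays)

/-! Project SPN, package GF (helper502): the function `gf`. -/

namespace GFAux

theorem log_bd : Real.log (10 / 9) ≤ 0.1054 := by
  rw [Real.log_le_iff_le_exp (by norm_num)]
  refine le_trans ?_ (Real.sum_le_exp_of_nonneg (show (0 : ℝ) ≤ 0.1054 by norm_num) 4)
  norm_num [Finset.sum_range_succ, Nat.factorial]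

theorem mono {N : ℝ} (hN : 0 < N) {x y : ℝ} (hx : 0 < x) (hxy : x ≤ y) : gf N x ≤ gf N y := by
  have hy : 0 < y := hx.trans_le hxy
  unfold gf
  obtain ⟨M, hM⟩ : ∃ M, M = max 1 (Real.log (N / y)) := ⟨_, rfl⟩
  have hM1 : 1 ≤ M := by rw [hM]; exact le_max_left _ _
  have hML : Real.log (N / y) ≤ M := by rw [hM]; exact le_max_right _ _
  obtain ⟨u, hu⟩ : ∃ u, u = y / x := ⟨_, rfl⟩
  have hu1 : 1 ≤ u := by rw [hu, one_le_div hx]; exact hxy
  have hux : x * u = y := by rw [hu]; field_simp
  have hlog : Real.log (N / x) = Real.log (N / y) + Real.log u := by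
    rw [← Real.log_mul (by positivity) (by positivity), hu]
    congr 1
    field_simp
  have h1 : Real.log u ≤ u - 1 := Real.log_le_sub_one_of_pos (by linarith)
  have h2 : max 1 (Real.log (N / x)) ≤ u * M := by
    apply max_le
    · nlinarith
    · rw [hlog]
      nlinarith
  rw [← hM]
  calc x * max 1 (Real.log (N / x)) ≤ x * (u * M) := mul_le_mul_of_nonneg_left h2 hx.le
    _ = y * M := by rw [← mul_assoc, hux]

theorem dec {N : ℝ} (hN : 0 < N) {x : ℝ} (hx : 0 < x) :
    gf N (9 / 10 * x) ≤ 0.9975 ^ 2 * gf N x := by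
  unfold gf
  obtain ⟨M, hM⟩ : ∃ M, M = max 1 (Real.log (N / x)) := ⟨_, rfl⟩
  have hM1 : 1 ≤ M := by rw [hM]; exact le_max_left _ _
  have hML : Real.log (N / x) ≤ M := by rw [hM]; exact le_max_right _ _
  have hlog : Real.log (N / (9 / 10 * x)) = Real.log (N / x) + Real.log (10 / 9) := by
    rw [← Real.log_mul (by positivity) (by norm_num)]
    congr 1
    field_simp
  have hb := log_bd
  have h2 : max 1 (Real.log (N / (9 / 10 * x))) ≤ 1.1054 * M := by
    apply max_le
    · linarith
    · rw [hlog]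
      linarith
  rw [← hM]
  have h3 : 9 / 10 * x * max 1 (Real.log (N / (9 / 10 * x))) ≤ 9 / 10 * x * (1.1054 * M) :=
    mul_le_mul_of_nonneg_left h2 (by positivity)
  refine h3.trans ?_
  have h4 : 0 ≤ x * M := by positivity
  nlinarith

end GFAux

open GFAux in
theorem GF_ok : S_GF := by
  intro N hN
  refine ⟨fun x y hx hxy => mono hN hx hxy, fun x hx => dec hN hx, fun x hx => ?_, fun x hx => ?_⟩
  · unfold gf
    exact le_mul_of_one_le_right hx.le (le_max_left _ _)
  · have hNx : 0 < N / x := by positivity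
    rcases le_or_gt (Real.log (N / x)) 2 with h | h
    · refine ⟨2, le_rfl, ?_, ?_⟩
      · have h1 := (Real.log_le_iff_le_exp hNx).1 h
        rw [div_le_iff₀ hx] at h1
        push_cast
        linarith
      · have h1 : x ≤ gf N x := by
          unfold gf
          exact le_mul_of_one_le_right hx.le (le_max_left _ _)
        push_cast
        linarith
    · refine ⟨⌈Real.log (N / x)⌉₊, ?_, ?_, ?_⟩
      · have h1 : (2 : ℝ) < (⌈Real.log (N / x)⌉₊ : ℝ) := h.trans_le (Nat.le_ceil _)
        have h2 : 2 < ⌈Real.log (N / x)⌉₊ := by exact_mod_cast h1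
        exact h2.le
      · have h1 := (Real.log_le_iff_le_exp hNx).1 (Nat.le_ceil (Real.log (N / x)))
        rw [div_le_iff₀ hx] at h1
        linarith
      · have h1 : (⌈Real.log (N / x)⌉₊ : ℝ) < Real.log (N / x) + 1 := Nat.ceil_lt_add_one (by linarith)
        have h2 : (⌈Real.log (N / x)⌉₊ : ℝ) ≤ 2 * Real.log (N / x) := by linarith
        unfold gf
        have h3 : Real.log (N / x) ≤ max 1 (Real.log (N / x)) := le_max_right _ _
        calc (⌈Real.log (N / x)⌉₊ : ℝ) * x ≤ 2 * max 1 (Real.log (N / x)) * x :=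
              mul_le_mul_of_nonneg_right (by linarith) hx.le
          _ = 2 * (x * max 1 (Real.log (N / x))) := by ring

end Pool.Agent.U437.SPN
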