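import Pool.Agent.Q98.SPN.Stm

/-!
# Project SPN, packages TKN and GOOD (helper962)

`TKN_ok`: the trace moments `tk κ Y` are nonnegative. `GOOD_ok`: by Markov's inequality at least half of the
sign vectors satisfy `∑ i, d i * tk κ ≤ 2 N (2 e κ m)^κ`.
-/

set_option autoImplicit false

open scoped Matrix.Norms.L2Operator Matrix
open Finset
open scoped ComplexOrder

namespace Pool.Agent.U437.SPN

open Pool.Agent.Q98.SPN
open Pool.Agent.H172R2.GS (sg XX arrays)

theorem TKN_ok : S_TKN := by
  intro d κ Y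
  have h1 : (Yᴴ * Y).PosSemidef := Matrix.posSemidef_conjTranspose_mul_self Y
  have h2 : ((Yᴴ * Y) ^ κ).PosSemidef := h1.pow κ
  have h3 := h2.trace_nonneg
  unfold tk
  exact (Complex.le_def.mp h3).1

theorem GOOD_ok (hSM : S_SM) (hW : S_WORD) (hT : S_TKN) : S_GOOD := by
  classical
  intro ι _ _ d N hN κ hκ J _ _ hJ A hA
  set M : ℝ := (2 * Real.exp 1 * κ * Fintype.card J) ^ κ with hM
  have hM0 : 0 ≤ M := by positivity
  set S : (J → Bool) → ℝ := fun ε => ∑ i, (d i : ℝ) * tk κ (XX (fun g => A g i) ε) with hS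
  have hS0 : ∀ ε, 0 ≤ S ε := fun ε =>
    Finset.sum_nonneg fun i _ => mul_nonneg (Nat.cast_nonneg _) (hT _ _ _)
  set T : ℝ := ∑ ε : J → Bool, (∑ g, sg (ε g)) ^ (2 * κ) with hTdef
  have hT1 : T ≤ 2 ^ (Fintype.card J) * M := hSM J κ hJ hκ
  have hT0 : 0 ≤ T := Finset.sum_nonneg fun ε _ => by
    rw [pow_mul]; positivity
  have hsum : ∑ ε : J → Bool, S ε ≤ N * (2 ^ (Fintype.card J) * M) := by
    calc ∑ ε : J → Bool, S ε
        = ∑ i, (d i : ℝ) * ∑ ε : J → Bool, tk κ (XX (fun g => A g i) ε) := by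
          rw [hS, Finset.sum_comm]
          exact Finset.sum_congr rfl fun i _ => by rw [Finset.mul_sum]
      _ ≤ ∑ i, (d i : ℝ) * ((d i : ℝ) * T) := by
          refine Finset.sum_le_sum fun i _ => ?_
          exact mul_le_mul_of_nonneg_left (hW J (d i) (fun g => A g i) κ (fun g => hA g i))
            (Nat.cast_nonneg _)
      _ = ((∑ i, d i ^ 2 : ℕ) : ℝ) * T := by
          push_cast
          rw [Finset.sum_mul]
          exact Finset.sum_congr rfl fun i _ => by ring
      _ ≤ N * T := mul_le_mul_of_nonneg_right hN hT0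
      _ ≤ N * (2 ^ (Fintype.card J) * M) := by
          refine mul_le_mul_of_nonneg_left hT1 ?_
          exact le_trans (Nat.cast_nonneg _) hN
  have hN0 : 0 ≤ N := le_trans (Nat.cast_nonneg _) hN
  refine ⟨Finset.univ.filter fun ε => S ε ≤ 2 * N * M, ?_, ?_⟩
  · by_contra hlt
    rw [not_le] at hlt
    set B : Finset (J → Bool) := Finset.univ.filter fun ε => ¬ S ε ≤ 2 * N * M with hB
    have hcard : ((Finset.univ.filter fun ε : J → Bool => S ε ≤ 2 * N * M).card : ℝ) + (B.card : ℝ) =
        2 ^ (Fintype.card J) := by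
      have := Finset.card_filter_add_card_filter_not (s := (Finset.univ : Finset (J → Bool)))
        (fun ε => S ε ≤ 2 * N * M)
      rw [Finset.card_univ, Fintype.card_fun, Fintype.card_bool] at this
      exact_mod_cast this
    have hBc : (2 : ℝ) ^ (Fintype.card J) / 2 < B.card := by linarith
    have hBne : B.Nonempty := by
      rw [← Finset.card_pos]
      have : (0 : ℝ) < B.card := lt_of_le_of_lt (by positivity) hBc
      exact_mod_cast this
    have h1 : (B.card : ℝ) * (2 * N * M) < ∑ ε ∈ B, S ε := by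
      have : ∑ ε ∈ B, (2 * N * M) < ∑ ε ∈ B, S ε := by
        refine Finset.sum_lt_sum_of_nonempty hBne fun ε hε => ?_
        have := (Finset.mem_filter.mp hε).2
        exact not_le.mp this
      rwa [Finset.sum_const, nsmul_eq_mul] at this
    have h2 : ∑ ε ∈ B, S ε ≤ ∑ ε : J → Bool, S ε :=
      Finset.sum_le_sum_of_subset_of_nonneg (Finset.subset_univ _) fun ε _ _ => hS0 ε
    have h3 : (2 : ℝ) ^ (Fintype.card J) / 2 * (2 * N * M) ≤ (B.card : ℝ) * (2 * N * M) :=
      mul_le_mul_of_nonneg_right hBc.le (by positivity)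
    nlinarith [h1, h2, h3, hsum]
  · intro ε hε
    exact (Finset.mem_filter.mp hε).2

end Pool.Agent.U437.SPN
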