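import Pool.Agent.Q98.SPN.Stm

/-!
# Project SPN, package LEV: cover of the parts of level `k` of all blocks
-/

set_option autoImplicit false

open scoped Matrix.Norms.L2Operator Matrix
open Finset

namespace Pool.Agent.U437.SPN

open Pool.Agent.Q98.SPN
open Pool.Agent.H172R2.GS (sg XX arrays)

namespace LEVAux

/-- the finite set of LR for the parameters `d, r, k, s` -/
theorem lr_fun (hL : S_LR) (k : ℕ) (s : ℝ) (hs : 0 < s) :
    ∃ G : (d r : ℕ) → Finset (Matrix (Fin d) (Fin d) ℂ),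
      (∀ d r, (G d r).card ≤ 5 ^ (2 * (d * r) * (4 * k + 5))) ∧
      ∀ d r, ∀ W V : Matrix (Fin d) (Fin r) ℂ, ‖W‖ ≤ 2 ^ (k + 1) * s → ‖V‖ ≤ 1 →
        ∃ Z ∈ G d r, ‖W * Vᴴ - Z‖ ≤ s / 2 ^ k := by
  choose G hG1 hG2 using fun d r => hL d r k s hs
  exact ⟨G, hG1, hG2⟩

/-- the size of the product of the finite sets of LR -/
theorem card_pi {ι : Type} [Fintype ι] [DecidableEq ι] (d : ι → ℕ) (q k : ℕ)
    (G : (d r : ℕ) → Finset (Matrix (Fin d) (Fin d) ℂ))
    (hG : ∀ d r, (G d r).card ≤ 5 ^ (2 * (d * r) * (4 * k + 5)))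
    (r : ι → ℕ) (hr : ∑ i, d i * r i ≤ q) :
    (Fintype.piFinset fun i => G (d i) (r i)).card ≤ 5 ^ (2 * (4 * k + 5) * q) := by
  rw [Fintype.card_piFinset]
  calc ∏ i, (G (d i) (r i)).card ≤ ∏ i, 5 ^ (2 * (d i * r i) * (4 * k + 5)) :=
        Finset.prod_le_prod' fun i _ => hG (d i) (r i)
    _ = 5 ^ (∑ i, 2 * (d i * r i) * (4 * k + 5)) := by rw [Finset.prod_pow_eq_pow_sum]
    _ ≤ 5 ^ (2 * (4 * k + 5) * q) := by
        apply Nat.pow_le_pow_right (by norm_num)
        calc ∑ i, 2 * (d i * r i) * (4 * k + 5) = 2 * (4 * k + 5) * ∑ i, d i * r i := by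
              rw [Finset.mul_sum]
              exact Finset.sum_congr rfl fun i _ => by ring
          _ ≤ 2 * (4 * k + 5) * q := Nat.mul_le_mul_left _ hr

end LEVAux

open LEVAux in
theorem LEV_ok (hL : S_LR) (hC : S_CNT) : S_LEV := by
  classical
  intro ι _ _ d q k z s hz0 hz1 hs
  obtain ⟨G, hG1, hG2⟩ := lr_fun hL k s hs
  let R : Finset (ι → ℕ) := (arrays ι q).filter fun r => ∑ i, d i * r i ≤ q
  let F : Finset ((i : ι) → Matrix (Fin (d i)) (Fin (d i)) ℂ) :=
    R.biUnion fun r => Fintype.piFinset fun i => G (d i) (r i)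
  refine ⟨F, ?_, ?_⟩
  · have h1 : F.card ≤ (arrays ι q).card * 5 ^ (2 * (4 * k + 5) * q) := by
      calc F.card ≤ R.card * 5 ^ (2 * (4 * k + 5) * q) := by
            apply Finset.card_biUnion_le_card_mul
            intro r hr
            exact card_pi d q k G hG1 r (Finset.mem_filter.mp hr).2
        _ ≤ (arrays ι q).card * 5 ^ (2 * (4 * k + 5) * q) :=
            Nat.mul_le_mul_right _ (Finset.card_filter_le _ _)
    have h2 : (F.card : ℝ) ≤ ((arrays ι q).card : ℝ) * 5 ^ (2 * (4 * k + 5) * q) := by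
      exact_mod_cast h1
    calc (F.card : ℝ) * z ^ q
        ≤ ((arrays ι q).card : ℝ) * 5 ^ (2 * (4 * k + 5) * q) * z ^ q :=
          mul_le_mul_of_nonneg_right h2 (by positivity)
      _ = (((arrays ι q).card : ℝ) * z ^ q) * 5 ^ (2 * (4 * k + 5) * q) := by ring
      _ ≤ Real.exp (2 * z * Fintype.card ι) * 5 ^ (2 * (4 * k + 5) * q) :=
          mul_le_mul_of_nonneg_right (hC ι q z hz0 hz1) (by positivity)
  · intro r W V hr1 hr2 hW hV
    choose Z hZ1 hZ2 using fun i => hG2 (d i) (r i) (W i) (V i) (hW i) (hV i)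
    refine ⟨Z, ?_, hZ2⟩
    refine Finset.mem_biUnion.mpr ⟨r, ?_, ?_⟩
    · refine Finset.mem_filter.mpr ⟨?_, hr2⟩
      refine Finset.mem_filter.mpr ⟨?_, hr1⟩
      refine Fintype.mem_piFinset.mpr fun i => ?_
      refine Finset.mem_range.mpr ?_
      have : r i ≤ ∑ j, r j := Finset.single_le_sum (fun _ _ => Nat.zero_le _) (Finset.mem_univ i)
      omega
    · exact Fintype.mem_piFinset.mpr hZ1

end Pool.Agent.U437.SPN

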