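import Pool.Agent.Q98.SPN.Stm

/-!
# Project SPN: LOGC and NUM
-/

set_option autoImplicit false

open scoped Matrix.Norms.L2Operator Matrix
open Finset

namespace Pool.Agent.U437.SPN

open Pool.Agent.Q98.SPN
open Pool.Agent.H172R2.GS (sg XX arrays)

namespace LOGCAux

theorem log2 : Real.log 2 ≤ 0.6931471808 := Real.log_two_lt_d9.le

theorem log5 : Real.log 5 ≤ 1.61 := by
  have h1 : Real.log ((5 : ℝ) ^ 31) ≤ Real.log ((2 : ℝ) ^ 72) :=
    Real.log_le_log (by positivity) (by norm_num)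
  rw [Real.log_pow, Real.log_pow] at h1
  have h2 := log2
  push_cast at h1
  linarith

theorem log400 : Real.log 400 ≤ 6 := by
  have h1 : (400 : ℝ) = 2 ^ 4 * 5 ^ 2 := by norm_num
  rw [h1, Real.log_mul (by positivity) (by positivity), Real.log_pow, Real.log_pow]
  have h2 := log2
  have h3 : Real.log ((5 : ℝ) ^ 31) ≤ Real.log ((2 : ℝ) ^ 72) :=
    Real.log_le_log (by positivity) (by norm_num)
  rw [Real.log_pow, Real.log_pow] at h3
  push_cast at h3 ⊢
  linarith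

theorem s2 (K : ℕ) : ∑ k ∈ range K, (1 : ℝ) / 2 ^ k = 2 - 2 / 2 ^ K := by
  induction K with
  | zero => simp
  | succ K ih =>
    rw [sum_range_succ, ih, pow_succ]
    field_simp
    ring

theorem s16 (K : ℕ) : ∑ k ∈ range K, (1 : ℝ) / 16 ^ k = 16 / 15 - 16 / 15 / 16 ^ K := by
  induction K with
  | zero => simp
  | succ K ih =>
    rw [sum_range_succ, ih, pow_succ]
    field_simp
    ring

theorem k16 (K : ℕ) : ∑ k ∈ range K, (k : ℝ) / 16 ^ k =
    16 / 225 - (K * (16 / 15) + 16 / 225) / 16 ^ K := by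
  induction K with
  | zero => simp
  | succ K ih =>
    rw [sum_range_succ, ih, pow_succ]
    push_cast
    field_simp
    ring

theorem p100 (κ : ℕ) (h : 2 ≤ κ) : 200 * (24.6 + 1.07 * (κ : ℝ)) ≤ 100 ^ κ := by
  induction κ, h using Nat.le_induction with
  | base => norm_num
  | succ n hn ih =>
    rw [pow_succ]
    push_cast
    have : (2 : ℝ) ≤ n := by exact_mod_cast hn
    nlinarith

end LOGCAux

open LOGCAux

theorem LOGC_ok : S_LOGC := by
  intro m κ k c B hc hcm hB h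
  obtain ⟨z, hz⟩ : ∃ z, z = zz κ k := ⟨_, rfl⟩
  obtain ⟨q, hq⟩ : ∃ q, q = qq m κ k := ⟨_, rfl⟩
  rw [← hz, ← hq] at h
  have hz0 : 0 < z := by rw [hz]; unfold zz; positivity
  have hlz : -Real.log z ≤ 6 + 0.7 * k + κ := by
    have e : Real.log z = -(Real.log 400 + k * Real.log 2 + κ) := by
      rw [hz]
      unfold zz
      rw [Real.log_div one_ne_zero (by positivity), Real.log_one, Real.log_mul (by positivity)
        (by positivity), Real.log_mul (by norm_num) (by positivity), Real.log_pow, Real.log_exp]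
      ring
    rw [e, neg_neg]
    have h1 := log400
    have h2 := log2
    have h3 : (k : ℝ) * Real.log 2 ≤ k * 0.7 :=
      mul_le_mul_of_nonneg_left (by linarith) (Nat.cast_nonneg k)
    linarith
  have hq1 : (q : ℝ) ≤ 2 * m / (16 ^ k * 100 ^ κ) := by
    rw [hq]
    unfold qq
    exact Nat.floor_le (by positivity)
  have hzc : 2 * z * c ≤ m / (200 * 2 ^ k) := by
    calc 2 * z * c ≤ 2 * z * (m * Real.exp κ) := mul_le_mul_of_nonneg_left hcm (by positivity)
      _ = m / (200 * 2 ^ k) := by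
        rw [hz]
        unfold zz
        have := Real.exp_pos (κ : ℝ)
        field_simp
        ring
  have h1 : B = B * z ^ q * Real.exp (q * (-Real.log z)) := by
    have e : z ^ q = Real.exp (q * Real.log z) := by
      rw [mul_comm, Real.exp_mul, Real.exp_log hz0, Real.rpow_natCast]
    rw [e, mul_assoc, ← Real.exp_add]
    have : (q : ℝ) * Real.log z + q * (-Real.log z) = 0 := by ring
    rw [this, Real.exp_zero, mul_one]
  have h5 : (5 : ℝ) ^ (2 * (4 * k + 5) * q) = Real.exp ((2 * (4 * k + 5) * q : ℝ) * Real.log 5) := by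
    rw [← Real.rpow_natCast, Real.rpow_def_of_pos (by norm_num)]
    push_cast
    congr 1
    ring
  rw [h1]
  refine (mul_le_mul_of_nonneg_right h (Real.exp_pos _).le).trans ?_
  rw [h5, ← Real.exp_add, ← Real.exp_add]
  refine Real.exp_le_exp.2 ?_
  have hk0 : (0 : ℝ) ≤ k := Nat.cast_nonneg k
  have hq0 : (0 : ℝ) ≤ q := Nat.cast_nonneg q
  have hκ0 : (0 : ℝ) ≤ κ := Nat.cast_nonneg κ
  have h6 : (2 * (4 * k + 5) * q : ℝ) * Real.log 5 ≤ q * (16.1 + 12.88 * k) := by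
    have := mul_le_mul_of_nonneg_left log5 (by positivity : (0 : ℝ) ≤ 2 * (4 * k + 5) * q)
    refine this.trans (le_of_eq ?_)
    ring
  have h7 : (q : ℝ) * (-Real.log z) ≤ q * (6 + 0.7 * k + κ) := mul_le_mul_of_nonneg_left hlz hq0
  have h8 : (q : ℝ) * (22.1 + 13.6 * k + κ) ≤
      2 * m / (16 ^ k * 100 ^ κ) * (22.1 + 13.6 * k + κ) :=
    mul_le_mul_of_nonneg_right hq1 (by positivity)
  have h9 : 2 * (m : ℝ) / (16 ^ k * 100 ^ κ) * (22.1 + 13.6 * k + κ) =
      m / 16 ^ k * (2 * (22.1 + 13.6 * k + κ) / 100 ^ κ) := by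
    field_simp
  rw [← h9]
  nlinarith [mul_nonneg hq0 hk0]

theorem NUM_ok : S_NUM := by
  intro m κ K hκ
  have hm : (0 : ℝ) ≤ m := Nat.cast_nonneg m
  have e : ∑ k ∈ range K, ((m : ℝ) / (200 * 2 ^ k) +
      (m : ℝ) / 16 ^ k * (2 * (22.1 + 13.6 * k + κ) / 100 ^ κ)) =
      m / 200 * (∑ k ∈ range K, (1 : ℝ) / 2 ^ k) +
      m * (2 / 100 ^ κ) * ((22.1 + κ) * (∑ k ∈ range K, (1 : ℝ) / 16 ^ k) +
        13.6 * ∑ k ∈ range K, (k : ℝ) / 16 ^ k) := by
    rw [mul_add, mul_sum, ← mul_assoc, mul_sum, ← mul_assoc (m * (2 / 100 ^ κ) : ℝ), mul_sum,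
      ← sum_add_distrib, ← sum_add_distrib]
    refine sum_congr rfl fun k _ => ?_
    field_simp
    ring
  rw [e, s2, s16, k16]
  have h1 : (0 : ℝ) ≤ 2 / 2 ^ K := by positivity
  have h2 : (0 : ℝ) ≤ 16 / 15 / 16 ^ K := by positivity
  have h3 : (0 : ℝ) ≤ (K * (16 / 15) + 16 / 225) / 16 ^ K := by positivity
  have hκ0 : (0 : ℝ) ≤ κ := Nat.cast_nonneg κ
  have h4 : (22.1 + (κ : ℝ)) * (16 / 15 - 16 / 15 / 16 ^ K) +
      13.6 * (16 / 225 - (K * (16 / 15) + 16 / 225) / 16 ^ K) ≤ 24.6 + 1.07 * κ := by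
    have h5 : (22.1 + (κ : ℝ)) * (16 / 15 - 16 / 15 / 16 ^ K) ≤ (22.1 + (κ : ℝ)) * (16 / 15) :=
      mul_le_mul_of_nonneg_left (by linarith) (by positivity)
    nlinarith
  have h6 := p100 κ hκ
  have h7 : (m : ℝ) * (2 / 100 ^ κ) * (24.6 + 1.07 * κ) ≤ m / 100 := by
    have h8 : 2 / (100 : ℝ) ^ κ * (24.6 + 1.07 * κ) ≤ 1 / 100 := by
      rw [div_mul_eq_mul_div, div_le_div_iff₀ (by positivity) (by norm_num)]
      linarith
    calc (m : ℝ) * (2 / 100 ^ κ) * (24.6 + 1.07 * κ) = m * (2 / 100 ^ κ * (24.6 + 1.07 * κ)) := by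
          ring
      _ ≤ m * (1 / 100) := mul_le_mul_of_nonneg_left h8 hm
      _ = m / 100 := by ring
  have h9 := mul_le_mul_of_nonneg_left h4 (by positivity : (0 : ℝ) ≤ m * (2 / 100 ^ κ))
  have h10 : (m : ℝ) / 200 * (2 - 2 / 2 ^ K) ≤ m / 100 := by
    have := mul_le_mul_of_nonneg_left (by linarith : (2 : ℝ) - 2 / 2 ^ K ≤ 2)
      (by positivity : (0 : ℝ) ≤ m / 200)
    linarith
  linarith

end Pool.Agent.U437.SPN
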