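import Pool.Agent.Q98.SPN.Stm
set_option autoImplicit false
open scoped Matrix.Norms.L2Operator Matrix
open Finset
namespace Pool.Agent.U437.SPN
open Pool.Agent.Q98.SPN
open Pool.Agent.H172R2.GS (sg XX arrays)

namespace LRAux

theorem fr (d r : ℕ) : Module.finrank ℝ (Matrix (Fin d) (Fin r) ℂ) = 2 * (d * r) := by
  rw [finrank_real_of_complex, Module.finrank_matrix]
  simp

end LRAux

theorem LR_ok (hN : S_NET) : S_LR := by
  intro d r k s hs
  classical
  obtain ⟨FW, hFWc, hFW⟩ := hN (Matrix (Fin d) (Fin r) ℂ) (2 * k + 2) (s / 2 ^ (k + 1)) (by positivity)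
  obtain ⟨FV, hFVc, hFV⟩ := hN (Matrix (Fin d) (Fin r) ℂ) (2 * k + 3) (1 / 2 ^ (2 * k + 3)) (by positivity)
  refine ⟨(FW ×ˢ FV).image fun p => p.1 * p.2ᴴ, ?_, ?_⟩
  · refine card_image_le.trans ?_
    rw [card_product]
    refine (Nat.mul_le_mul hFWc hFVc).trans (le_of_eq ?_)
    rw [← pow_add, LRAux.fr]
    congr 1
    ring
  · intro W V hW hV
    obtain ⟨W', hW', hWW⟩ := hFW W (by
      refine hW.trans (le_of_eq ?_)
      have e2 : (2 : ℝ) ^ (2 * k + 2) = 2 ^ (k + 1) * 2 ^ (k + 1) := by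
        rw [← pow_add]
        congr 1
        ring
      rw [e2, mul_assoc, mul_div_cancel₀ _ (by positivity : (2 : ℝ) ^ (k + 1) ≠ 0)])
    obtain ⟨V', hV', hVV⟩ := hFV V (by
      refine hV.trans (le_of_eq ?_)
      field_simp)
    refine ⟨W' * V'ᴴ, ?_, ?_⟩
    · exact mem_image.2 ⟨(W', V'), mem_product.2 ⟨hW', hV'⟩, rfl⟩
    · have e : W * Vᴴ - W' * V'ᴴ = (W - W') * Vᴴ + W' * (V - V')ᴴ := by
        rw [Matrix.conjTranspose_sub, Matrix.sub_mul, Matrix.mul_sub]
        abel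
      have h1 : ‖(W - W') * Vᴴ‖ ≤ s / 2 ^ (k + 1) * 1 := by
        refine (Matrix.l2_opNorm_mul _ _).trans ?_
        rw [Matrix.l2_opNorm_conjTranspose]
        exact mul_le_mul hWW hV (norm_nonneg _) (by positivity)
      have h3 : ‖W'‖ ≤ 2 ^ (k + 2) * s := by
        have h4 : ‖W'‖ ≤ ‖W‖ + ‖W - W'‖ := by
          have : W' = W - (W - W') := by abel
          calc ‖W'‖ = ‖W - (W - W')‖ := by rw [← this]
            _ ≤ ‖W‖ + ‖W - W'‖ := norm_sub_le _ _
        have h5 : s / 2 ^ (k + 1) ≤ 2 ^ (k + 1) * s := by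
          rw [div_le_iff₀ (by positivity)]
          have h6 : (1 : ℝ) ≤ 2 ^ (k + 1) := one_le_pow₀ (by norm_num)
          have h7 : (1 : ℝ) ≤ 2 ^ (k + 1) * 2 ^ (k + 1) := by nlinarith
          nlinarith
        have h6 : (2 : ℝ) ^ (k + 2) * s = 2 ^ (k + 1) * s + 2 ^ (k + 1) * s := by
          rw [pow_succ (2 : ℝ) (k + 1)]
          ring
        linarith
      have h2 : ‖W' * (V - V')ᴴ‖ ≤ 2 ^ (k + 2) * s * (1 / 2 ^ (2 * k + 3)) := by
        refine (Matrix.l2_opNorm_mul _ _).trans ?_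
        rw [Matrix.l2_opNorm_conjTranspose]
        exact mul_le_mul h3 hVV (norm_nonneg _) (by positivity)
      have h8 : (2 : ℝ) ^ (k + 2) * s * (1 / 2 ^ (2 * k + 3)) = s / 2 ^ (k + 1) := by
        rw [show 2 * k + 3 = (k + 2) + (k + 1) by ring, pow_add (2 : ℝ) (k + 2) (k + 1)]
        field_simp
      have h9 : s / 2 ^ (k + 1) + s / 2 ^ (k + 1) = s / 2 ^ k := by
        rw [pow_succ]
        field_simp
        norm_num
      rw [e]
      refine (norm_add_le _ _).trans ?_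
      rw [h8] at h2
      linarith

end Pool.Agent.U437.SPN
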