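import Pool.Agent.Q98.SPN.Stm

/-!
# Project SPN, package PC: partial colouring (from GOOD, COV and HAM)
-/

set_option autoImplicit false

open scoped Matrix.Norms.L2Operator Matrix
open Finset

namespace Pool.Agent.U437.SPN

open Pool.Agent.Q98.SPN
open Pool.Agent.H172R2.GS (sg XX arrays)

namespace PCAux

/-- pigeonhole principle with real constants -/
lemma pigeon {α β : Type*} [DecidableEq β] (E : Finset α) (F : Finset β) (f : α → β)
    (hf : ∀ a ∈ E, f a ∈ F) (c : ℝ) (hE : 0 < E.card) (h : c * F.card ≤ E.card) :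
    ∃ y ∈ F, c ≤ ((E.filter fun a => f a = y).card : ℝ) := by
  by_contra hcon
  push Not at hcon
  have h1 : (E.card : ℝ) = ∑ y ∈ F, ((E.filter fun a => f a = y).card : ℝ) := by
    rw [Finset.card_eq_sum_card_fiberwise hf]
    push_cast
    rfl
  obtain ⟨a, ha⟩ := Finset.card_pos.1 hE
  have h2 : ∑ y ∈ F, ((E.filter fun a => f a = y).card : ℝ) < ∑ _y ∈ F, c :=
    Finset.sum_lt_sum_of_nonempty ⟨f a, hf a ha⟩ hcon
  rw [sum_const, nsmul_eq_mul] at h2
  linarith

lemma sg_diff (a b : Bool) : (sg a - sg b) / 2 = 0 ∨ (sg a - sg b) / 2 = 1 ∨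
    (sg a - sg b) / 2 = -1 := by
  cases a <;> cases b <;> simp [sg] <;> norm_num

lemma sg_diff_ne (a b : Bool) : (sg a - sg b) / 2 ≠ 0 ↔ a ≠ b := by
  cases a <;> cases b <;> simp [sg] <;> norm_num

lemma sum_diff {J : Type} [Fintype J] {d : ℕ} (A : J → Matrix (Fin d) (Fin d) ℂ) (a b : J → Bool) :
    ∑ g, ((((sg (a g) - sg (b g)) / 2 : ℝ)) : ℂ) • A g = (1 / 2 : ℂ) • (XX A a - XX A b) := by
  unfold Pool.Agent.H172R2.GS.XX
  rw [← Finset.sum_sub_distrib, Finset.smul_sum]
  refine Finset.sum_congr rfl fun g _ => ?_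
  rw [← sub_smul, smul_smul]
  congr 1
  push_cast
  ring

end PCAux

open PCAux in
theorem PC_ok (hG : S_GOOD) (hC : S_COV) : S_PC := by
  classical
  intro ι _ _ d κ N hd hN hκ J _ _ A hJ hNJ hA
  obtain ⟨m, hm⟩ : ∃ m, m = Fintype.card J := ⟨_, rfl⟩
  obtain ⟨E, hE, hE2⟩ := hG ι d N hN κ (by omega) J (by omega) A hA
  obtain ⟨F, hF, hF2⟩ := hC ι d (Fintype.card J) κ N hd hN (by omega) hκ hNJ
  choose! f hf using fun ε (hε : ε ∈ E) => hF2 (fun i => XX (fun g => A g i) ε) (hE2 ε hε)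
  have hEpos : 0 < E.card := by
    have : (0:ℝ) < E.card := lt_of_lt_of_le (by positivity) hE
    exact_mod_cast this
  have hcF : (2 : ℝ) ^ (Fintype.card J) / 2 * Real.exp (-(Fintype.card J : ℝ) / 50) * F.card ≤
      E.card := by
    have h1 : Real.exp (-(Fintype.card J : ℝ) / 50) * F.card ≤ 1 := by
      calc Real.exp (-(Fintype.card J : ℝ) / 50) * F.card
          ≤ Real.exp (-(Fintype.card J : ℝ) / 50) * Real.exp ((Fintype.card J : ℝ) / 50) :=
            mul_le_mul_of_nonneg_left hF (Real.exp_pos _).le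
        _ = 1 := by
            rw [← Real.exp_add, ← Real.exp_zero]
            congr 1
            ring
    calc (2 : ℝ) ^ (Fintype.card J) / 2 * Real.exp (-(Fintype.card J : ℝ) / 50) * F.card
        = (2 : ℝ) ^ (Fintype.card J) / 2 * (Real.exp (-(Fintype.card J : ℝ) / 50) * F.card) := by
          ring
      _ ≤ (2 : ℝ) ^ (Fintype.card J) / 2 * 1 := mul_le_mul_of_nonneg_left h1 (by positivity)
      _ ≤ E.card := by rw [mul_one]; exact hE
  obtain ⟨y, hy, hyc⟩ := pigeon E F f (fun a ha => (hf a ha).1) _ hEpos hcF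
  obtain ⟨a, ha, b, hb, hab⟩ := Pool.Agent.H172R2.GS.HAM_ok J (E.filter fun ε => f ε = y) hJ hyc
  rw [Finset.mem_filter] at ha hb
  refine ⟨fun g => (sg (a g) - sg (b g)) / 2, fun g => sg_diff _ _, ?_, ?_⟩
  · have h2 : (univ.filter fun g => (sg (a g) - sg (b g)) / 2 ≠ 0) =
        univ.filter fun g => a g ≠ b g := by
      ext g
      simp only [Finset.mem_filter, Finset.mem_univ, true_and]
      exact sg_diff_ne _ _
    simp only [h2]
    exact hab
  · intro i
    have h3 := (hf a ha.1).2 i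
    have h4 := (hf b hb.1).2 i
    rw [ha.2] at h3
    rw [hb.2] at h4
    have h5 := sum_diff (fun g => A g i) a b
    rw [h5]
    have h6 : XX (fun g => A g i) a - XX (fun g => A g i) b =
        (XX (fun g => A g i) a - y i) - (XX (fun g => A g i) b - y i) := by abel
    have h7 : ‖XX (fun g => A g i) a - XX (fun g => A g i) b‖ ≤
        3 * sc (Fintype.card J) κ + 3 * sc (Fintype.card J) κ := by
      rw [h6]
      exact (norm_sub_le _ _).trans (add_le_add h3 h4)
    calc ‖(1 / 2 : ℂ) • (XX (fun g => A g i) a - XX (fun g => A g i) b)‖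
        ≤ ‖(1 / 2 : ℂ)‖ * ‖XX (fun g => A g i) a - XX (fun g => A g i) b‖ := norm_smul_le _ _
      _ ≤ (1 / 2) * (3 * sc (Fintype.card J) κ + 3 * sc (Fintype.card J) κ) := by
          refine mul_le_mul (by simp) h7 (norm_nonneg _) (by norm_num)
      _ = 3 * sc (Fintype.card J) κ := by ring

end Pool.Agent.U437.SPN
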