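import Pool.Agent.Q98.SPN.Stm
set_option autoImplicit false
open scoped Matrix.Norms.L2Operator Matrix
open Finset
namespace Pool.Agent.U437.SPN
open Pool.Agent.Q98.SPN
open Pool.Agent.H172R2.GS (sg XX arrays)

/-! Project SPN, package SPEC (helper535). -/

open scoped ComplexOrder in
theorem SPEC_ok : S_SPEC := by
  intro d Y
  have hP : (Yᴴ * Y).PosSemidef := Matrix.posSemidef_conjTranspose_mul_self Y
  have hH : (Yᴴ * Y).IsHermitian := hP.isHermitian
  obtain ⟨l, hl⟩ : ∃ l : Fin d → ℝ, l = hH.eigenvalues := ⟨_, rfl⟩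
  have hl0 : ∀ j, 0 ≤ l j := by
    rw [hl]
    exact hP.eigenvalues_nonneg
  obtain ⟨U, hU⟩ : ∃ U : Matrix (Fin d) (Fin d) ℂ, U = (hH.eigenvectorUnitary : Matrix (Fin d) (Fin d) ℂ) :=
    ⟨_, rfl⟩
  have h1 : U * Uᴴ = 1 := by
    rw [hU]
    exact Unitary.mul_star_self_of_mem hH.eigenvectorUnitary.2
  have h2 : Uᴴ * U = 1 := by
    rw [hU]
    exact Unitary.star_mul_self_of_mem hH.eigenvectorUnitary.2
  obtain ⟨D, hD⟩ : ∃ D : Matrix (Fin d) (Fin d) ℂ,
    D = Matrix.diagonal (fun j => ((l j : ℝ) : ℂ)) := ⟨_, rfl⟩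
  have h3 : Yᴴ * Y = U * D * Uᴴ := by
    have h := hH.spectral_theorem
    rw [Unitary.conjStarAlgAut_apply] at h
    rw [hU, hD, hl]
    exact h
  clear hl hU
  refine ⟨U, l, h1, h2, hl0, ?_, fun κ => ?_⟩
  · rw [Matrix.conjTranspose_mul]
    have : Uᴴ * Yᴴ * (Y * U) = Uᴴ * (Yᴴ * Y) * U := by simp only [Matrix.mul_assoc]
    rw [this, h3, ← hD]
    have : Uᴴ * (U * D * Uᴴ) * U = (Uᴴ * U) * D * (Uᴴ * U) := by simp only [Matrix.mul_assoc]
    rw [this, h2, Matrix.one_mul, Matrix.mul_one]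
  · have h4 : ∀ κ : ℕ, (U * D * Uᴴ) ^ κ = U * D ^ κ * Uᴴ := by
      intro κ
      induction κ with
      | zero => rw [pow_zero, pow_zero, Matrix.mul_one, h1]
      | succ κ ih =>
        rw [pow_succ, ih, pow_succ]
        have : U * D ^ κ * Uᴴ * (U * D * Uᴴ) = U * D ^ κ * (Uᴴ * U) * D * Uᴴ := by
          simp only [Matrix.mul_assoc]
        rw [this, h2, Matrix.mul_one]
        simp only [Matrix.mul_assoc]
    unfold tk
    rw [h3, h4, Matrix.trace_mul_comm, ← Matrix.mul_assoc, h2, Matrix.one_mul, hD,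
      Matrix.diagonal_pow, Matrix.trace_diagonal, Complex.re_sum]
    refine Finset.sum_congr rfl fun j _ => ?_
    rw [Pi.pow_apply, ← Complex.ofReal_pow, Complex.ofReal_re]

end Pool.Agent.U437.SPN
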