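import Pool.Agent.Q98.SPN.Stm
set_option autoImplicit false
open scoped Matrix.Norms.L2Operator Matrix
open Finset
namespace Pool.Agent.U437.SPN
open Pool.Agent.Q98.SPN
open Pool.Agent.H172R2.GS (sg XX arrays)

namespace WORDAux

lemma norm_one_le (d : ℕ) : ‖(1 : Matrix (Fin d) (Fin d) ℂ)‖ ≤ 1 := by
  rw [← Matrix.diagonal_one, Matrix.l2_opNorm_diagonal, pi_norm_le_iff_of_nonneg zero_le_one]
  intro i
  simp

lemma entry_le {d : ℕ} (P : Matrix (Fin d) (Fin d) ℂ) (i : Fin d) : ‖P i i‖ ≤ ‖P‖ := by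
  have h := P.l2_opNorm_mulVec (EuclideanSpace.single i (1 : ℂ))
  rw [PiLp.norm_single, norm_one, mul_one] at h
  refine le_trans ?_ h
  have h2 := EuclideanSpace.norm_eq
    ((EuclideanSpace.equiv (Fin d) ℂ).symm (P *ᵥ (EuclideanSpace.single i (1 : ℂ))))
  rw [h2]
  refine Real.le_sqrt_of_sq_le ?_
  have h3 : ‖P i i‖ ^ 2 = ‖((EuclideanSpace.equiv (Fin d) ℂ).symm
      (P *ᵥ (EuclideanSpace.single i (1 : ℂ)))) i‖ ^ 2 := by
    congr 2
    simp
  rw [h3]
  exact Finset.single_le_sum (f := fun k => ‖((EuclideanSpace.equiv (Fin d) ℂ).symm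
      (P *ᵥ (EuclideanSpace.single i (1 : ℂ)))) k‖ ^ 2) (fun k _ => by positivity)
    (Finset.mem_univ i)

lemma trace_le {d : ℕ} (P : Matrix (Fin d) (Fin d) ℂ) (hP : ‖P‖ ≤ 1) :
    (Matrix.trace P).re ≤ d := by
  calc (Matrix.trace P).re ≤ ‖Matrix.trace P‖ := Complex.re_le_norm _
    _ ≤ ∑ i, ‖P i i‖ := norm_sum_le _ _
    _ ≤ ∑ _i : Fin d, (1 : ℝ) := Finset.sum_le_sum fun i _ => (entry_le P i).trans hP
    _ = d := by simp

lemma prod_single {J : Type} [Fintype J] [DecidableEq J] (s : J → ℝ) (a : J → ℕ) (g h : J) :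
    ∏ x, s x ^ (a x + (if g = x then 1 else 0) + (if h = x then 1 else 0)) =
      (∏ x, s x ^ a x) * s g * s h := by
  have h1 : ∀ g : J, ∏ x, s x ^ (if g = x then 1 else 0) = s g := by
    intro g
    rw [Finset.prod_pow_boole]
    simp
  simp only [pow_add, Finset.prod_mul_distrib, h1]

lemma expand {J : Type} [Fintype J] [DecidableEq J] {d : ℕ}
    (A : J → Matrix (Fin d) (Fin d) ℂ) (hA : ∀ g, ‖A g‖ ≤ 1) (κ : ℕ) :
    ∃ (Ω : Type) (_ : Fintype Ω) (a : Ω → J → ℕ) (P : Ω → Matrix (Fin d) (Fin d) ℂ),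
      (∀ ω, ‖P ω‖ ≤ 1) ∧
      (∀ ε : J → Bool, ((XX A ε)ᴴ * XX A ε) ^ κ =
        ∑ ω, ((∏ g, sg (ε g) ^ a ω g : ℝ) : ℂ) • P ω) ∧
      (∀ ε : J → Bool, (∑ g, sg (ε g)) ^ (2 * κ) = ∑ ω, ∏ g, sg (ε g) ^ a ω g) := by
  induction κ with
  | zero =>
    refine ⟨Unit, inferInstance, fun _ _ => 0, fun _ => 1, fun _ => norm_one_le d, ?_, ?_⟩
    · intro ε
      simp
    · intro ε
      simp
  | succ κ ih =>
    obtain ⟨Ω, hΩ, a, P, hP, h1, h2⟩ := ih
    refine ⟨Ω × J × J, inferInstance, fun t x => a t.1 x + (if t.2.1 = x then 1 else 0) +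
      (if t.2.2 = x then 1 else 0), fun t => P t.1 * ((A t.2.1)ᴴ * A t.2.2), ?_, ?_, ?_⟩
    · intro t
      have h3 : ‖P t.1 * ((A t.2.1)ᴴ * A t.2.2)‖ ≤ ‖P t.1‖ * (‖(A t.2.1)ᴴ‖ * ‖A t.2.2‖) :=
        (Matrix.l2_opNorm_mul _ _).trans
          (mul_le_mul_of_nonneg_left (Matrix.l2_opNorm_mul _ _) (norm_nonneg _))
      rw [Matrix.l2_opNorm_conjTranspose] at h3
      refine h3.trans ?_
      have := hP t.1
      have h4 : ‖A t.2.1‖ * ‖A t.2.2‖ ≤ 1 :=
        mul_le_one₀ (hA _) (norm_nonneg _) (hA _)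
      exact mul_le_one₀ this (by positivity) h4
    · intro ε
      rw [pow_succ, h1 ε]
      have h3 : (XX A ε)ᴴ = ∑ g, ((sg (ε g) : ℝ) : ℂ) • (A g)ᴴ := by
        rw [XX, Matrix.conjTranspose_sum]
        refine Finset.sum_congr rfl fun g _ => ?_
        rw [Matrix.conjTranspose_smul, Complex.star_def, Complex.conj_ofReal]
      rw [h3, XX, Finset.sum_mul_sum, Finset.sum_mul, Fintype.sum_prod_type]
      refine Finset.sum_congr rfl fun ω _ => ?_
      rw [Fintype.sum_prod_type, Finset.mul_sum]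
      refine Finset.sum_congr rfl fun g _ => ?_
      rw [Finset.mul_sum]
      refine Finset.sum_congr rfl fun h _ => ?_
      rw [prod_single (fun x => sg (ε x))]
      rw [smul_mul_smul_comm, smul_mul_smul_comm]
      push_cast
      rw [mul_assoc]
    · intro ε
      have h3 : 2 * (κ + 1) = 2 * κ + 1 + 1 := by ring
      rw [h3, pow_succ, pow_succ, mul_assoc, h2 ε, Finset.sum_mul_sum, Finset.sum_mul,
        Fintype.sum_prod_type]
      refine Finset.sum_congr rfl fun ω _ => ?_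
      rw [Fintype.sum_prod_type, Finset.mul_sum]
      refine Finset.sum_congr rfl fun g _ => ?_
      rw [Finset.mul_sum]
      refine Finset.sum_congr rfl fun h _ => ?_
      rw [prod_single (fun x => sg (ε x)), mul_assoc]

lemma coeff_nonneg {J : Type} [Fintype J] [DecidableEq J] (a : J → ℕ) :
    0 ≤ ∑ ε : J → Bool, ∏ g, sg (ε g) ^ a g := by
  have h2 := Finset.prod_univ_sum (fun _ : J => (univ : Finset Bool))
    (fun g x => sg x ^ a g)
  rw [Fintype.piFinset_univ] at h2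
  rw [← h2]
  refine Finset.prod_nonneg fun g _ => ?_
  rw [Fintype.sum_bool]
  rcases Nat.even_or_odd (a g) with h | h
  · simp [sg, h.neg_one_pow]
  · simp [sg, h.neg_one_pow]

end WORDAux

theorem WORD_ok : S_WORD := by
  intro J _ _ d A κ hA
  obtain ⟨Ω, hΩ, a, P, hP, h1, h2⟩ := WORDAux.expand A hA κ
  have h3 : ∀ ε : J → Bool, tk κ (XX A ε) =
      ∑ ω, (∏ g, sg (ε g) ^ a ω g) * (Matrix.trace (P ω)).re := by
    intro ε
    rw [tk, h1 ε, Matrix.trace_sum, Complex.re_sum]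
    refine Finset.sum_congr rfl fun ω _ => ?_
    rw [Matrix.trace_smul, smul_eq_mul, Complex.re_ofReal_mul]
  rw [Finset.sum_congr rfl fun ε _ => h3 ε, Finset.sum_congr rfl fun ε _ => h2 ε,
    Finset.sum_comm, Finset.sum_comm (s := univ) (t := univ)
      (f := fun (ε : J → Bool) ω => ∏ g, sg (ε g) ^ a ω g), Finset.mul_sum]
  refine Finset.sum_le_sum fun ω _ => ?_
  rw [← Finset.sum_mul, mul_comm]
  exact mul_le_mul_of_nonneg_right (WORDAux.trace_le _ (hP ω)) (WORDAux.coeff_nonneg (a ω))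

end Pool.Agent.U437.SPN
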