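import Pool.Agent.U437.SPN.SM
import Pool.Agent.U437.SPN.WORD
import Pool.Agent.U437.SPN.GOOD
import Pool.Agent.U437.SPN.SPEC
import Pool.Agent.U437.SPN.COLS
import Pool.Agent.U437.SPN.DEC
import Pool.Agent.U437.SPN.LR
import Pool.Agent.U437.SPN.CNT
import Pool.Agent.U437.SPN.LEV
import Pool.Agent.U437.SPN.LOGC
import Pool.Agent.U437.SPN.COVL
import Pool.Agent.U437.SPN.COV
import Pool.Agent.U437.SPN.PC
import Pool.Agent.U437.SPN.GF
import Pool.Agent.U437.SPN.MAINP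
import Pool.Agent.U437.SPN.Final
import Pool.Agent.U129.GSP.NET
import Pool.Agent.U165.GSP.SSR
import Pool.Agent.U460.GSP.WEA
import Pool.Agent.U890.GSP.INT
import Pool.Agent.U928.GSP.UNT
import Pool.Agent.U750.GSP.ISO
import Pool.Agent.U2.GSP.CPX

/-!
# Project SPN/GSP: assembly of the matrix Spencer bound in real algebras of matrices closed under transposition
-/

set_option autoImplicit false

open scoped Matrix.Norms.L2Operator Matrix
open Finset

namespace Pool.Agent.U437.SPN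

open Pool.Agent.Q98.SPN Pool.Agent.U834.GSP

theorem main_ok : S_MAIN :=
  MAIN_ok (MAINP_ok
    (PC_ok (GOOD_ok SM_ok WORD_ok TKN_ok)
      (COV_ok (COVL_ok (DEC_ok SPEC_ok COLS_ok) TKN_ok)
        (LEV_ok (LR_ok Pool.Agent.U129.GSP.NET.t_NET) CNT_ok) LOGC_ok NUM_ok)) GF_ok)

theorem iso_ok : S_ISO :=
  Pool.Agent.U750.GSP.ISO.t_ISO (Pool.Agent.U460.GSP.WEA.t_WEA Pool.Agent.U165.GSP.SSR.t_SSR)
    Pool.Agent.U890.GSP.INT.t_INT Pool.Agent.U928.GSP.UNT.t_UNT

theorem cpx_ok : S_CPX := Pool.Agent.U2.GSP.CPX.t_CPX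

end Pool.Agent.U437.SPN
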