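import Pool.Agent.Q98.SPN.Stm

set_option autoImplicit false

/-! Project SPN, package HS (helper741): Hilbert-Schmidt norms and the operator norm. -/

open scoped Matrix.Norms.L2Operator Matrix
open Finset

namespace Pool.Agent.U437.SPN
open Pool.Agent.Q98.SPN
open Pool.Agent.H172R2.GS (sg XX arrays)

namespace HSAux

/-- the trace of `Yᴴ Y` is the sum of the squares of the entries -/
theorem tr_eq {d : ℕ} (Y : Matrix (Fin d) (Fin d) ℂ) :
    (Matrix.trace (Yᴴ * Y)).re = ∑ j, ∑ i, ‖Y i j‖ ^ 2 := by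
  simp only [Matrix.trace, Matrix.diag_apply, Matrix.mul_apply, Matrix.conjTranspose_apply,
    Complex.re_sum]
  refine Finset.sum_congr rfl fun j _ => Finset.sum_congr rfl fun i _ => ?_
  have h := Complex.conj_mul' (Y i j)
  have h2 : star (Y i j) * Y i j = ((‖Y i j‖ ^ 2 : ℝ) : ℂ) := by
    push_cast
    exact h
  rw [h2, Complex.ofReal_re]

/-- `‖X u‖² ≤ ‖X‖² ‖u‖²` -/
theorem vec_le {d : ℕ} (X : Matrix (Fin d) (Fin d) ℂ) (u : Fin d → ℂ) :
    ∑ i, ‖(X *ᵥ u) i‖ ^ 2 ≤ ‖X‖ ^ 2 * ∑ i, ‖u i‖ ^ 2 := by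
  have h := X.l2_opNorm_mulVec (WithLp.toLp 2 u)
  have h1 : ∑ i, ‖(X *ᵥ u) i‖ ^ 2 =
      ‖(EuclideanSpace.equiv (Fin d) ℂ).symm (X *ᵥ (WithLp.toLp 2 u : EuclideanSpace ℂ (Fin d)).ofLp)‖ ^ 2 := by
    rw [EuclideanSpace.norm_sq_eq]
    rfl
  have h2 : ∑ i, ‖u i‖ ^ 2 = ‖(WithLp.toLp 2 u : EuclideanSpace ℂ (Fin d))‖ ^ 2 := by
    rw [EuclideanSpace.norm_sq_eq]
  rw [h1, h2, ← mul_pow]
  exact pow_le_pow_left₀ (norm_nonneg _) h 2

end HSAux

theorem HS_ok : S_HS := by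
  intro d X Y
  refine ⟨?_, fun c hc hd hZ => ?_⟩
  · rw [HSAux.tr_eq, HSAux.tr_eq, Finset.mul_sum]
    refine Finset.sum_le_sum fun j _ => ?_
    have h := HSAux.vec_le X (fun i => Y i j)
    have h1 : ∀ i, (X * Y) i j = (X *ᵥ fun i => Y i j) i := fun i => by
      rw [Matrix.mul_apply]
      rfl
    simp only [h1]
    exact h
  · rw [Matrix.l2_opNorm_def]
    refine ContinuousLinearMap.opNorm_le_bound _ hc fun u => ?_
    set j0 : Fin d := ⟨0, hd⟩ with hj0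
    set Z : Matrix (Fin d) (Fin d) ℂ := Matrix.of fun i j => if j = j0 then u.ofLp i else 0 with hZd
    have h1 := hZ Z
    rw [HSAux.tr_eq, HSAux.tr_eq] at h1
    have h2 : ∑ j, ∑ i, ‖Z i j‖ ^ 2 = ∑ i, ‖u.ofLp i‖ ^ 2 := by
      rw [Finset.sum_eq_single j0]
      · simp [hZd]
      · intro j _ hjne
        simp [hZd, hjne]
      · intro h
        exact absurd (Finset.mem_univ _) h
    have h3 : ∑ j, ∑ i, ‖(X * Z) i j‖ ^ 2 = ∑ i, ‖(X *ᵥ u.ofLp) i‖ ^ 2 := by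
      rw [Finset.sum_eq_single j0]
      · refine Finset.sum_congr rfl fun i _ => ?_
        have h6 : (X * Z) i j0 = (X *ᵥ u.ofLp) i := by
          rw [Matrix.mul_apply]
          simp [hZd, Matrix.mulVec, dotProduct]
        rw [h6]
      · intro j _ hjne
        simp [hZd, hjne, Matrix.mul_apply]
      · exact fun h => absurd (Finset.mem_univ _) h
    rw [h2, h3] at h1
    have h4 : ‖((Matrix.toEuclideanLin (𝕜 := ℂ) (m := Fin d) (n := Fin d)).trans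
        LinearMap.toContinuousLinearMap X) u‖ ^ 2 = ∑ i, ‖(X *ᵥ u.ofLp) i‖ ^ 2 := by
      rw [EuclideanSpace.norm_sq_eq]
      rfl
    have h5 : ∑ i, ‖u.ofLp i‖ ^ 2 = ‖u‖ ^ 2 := by
      rw [EuclideanSpace.norm_sq_eq]
    rw [h5, ← h4, ← mul_pow] at h1
    exact (sq_le_sq₀ (norm_nonneg _) (mul_nonneg hc (norm_nonneg _))).1 h1

end Pool.Agent.U437.SPN
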