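import Pool.Agent.Q98.SPN.Stm

/-!
Project SPN, package MAINP (helper505): full colouring from partial colouring; `S_PC → S_GF → S_MAINP` and
`S_MAINP → S_MAIN`.
-/

set_option autoImplicit false

open scoped Matrix.Norms.L2Operator Matrix
open Finset

namespace Pool.Agent.U437.SPN

open Pool.Agent.Q98.SPN
open Pool.Agent.H172R2.GS (sg XX arrays)

namespace MAINPAux

/-- `3 sc ≤ 170 √G` if `κ m ≤ 2 G` -/
lemma sc_le (m κ : ℕ) (G : ℝ) (hG : (κ : ℝ) * m ≤ 2 * G) : 3 * sc m κ ≤ 170 * Real.sqrt G := by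
  have hG0 : 0 ≤ G := by
    have : (0 : ℝ) ≤ (κ : ℝ) * m := by positivity
    linarith
  have he : Real.exp 2 = Real.exp 1 ^ 2 := by
    rw [← Real.exp_nat_mul]; norm_num
  have h1 : sc m κ ≤ 20 * Real.exp 1 * Real.sqrt G := by
    unfold sc
    have h2 : 200 * Real.exp 2 * κ * m ≤ (20 * Real.exp 1) ^ 2 * G := by
      rw [he]
      have h3 : (0 : ℝ) ≤ 200 * Real.exp 1 ^ 2 := by positivity
      nlinarith [mul_le_mul_of_nonneg_left hG h3]
    calc Real.sqrt (200 * Real.exp 2 * κ * m) ≤ Real.sqrt ((20 * Real.exp 1) ^ 2 * G) :=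
          Real.sqrt_le_sqrt h2
      _ = 20 * Real.exp 1 * Real.sqrt G := by
          rw [Real.sqrt_mul (by positivity), Real.sqrt_sq (by positivity)]
  have h4 : Real.exp 1 < 2.7182818286 := Real.exp_one_lt_d9
  have h5 : 0 ≤ Real.sqrt G := Real.sqrt_nonneg _
  nlinarith

lemma sqrt_step (G G' : ℝ) (h : G' ≤ 0.9975 ^ 2 * G) : Real.sqrt G' ≤ 0.9975 * Real.sqrt G := by
  calc Real.sqrt G' ≤ Real.sqrt (0.9975 ^ 2 * G) := Real.sqrt_le_sqrt h
    _ = 0.9975 * Real.sqrt G := by
        rw [Real.sqrt_mul (by positivity), Real.sqrt_sq (by norm_num)]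

end MAINPAux

open MAINPAux in
theorem MAINP_ok (hP : S_PC) (hG : S_GF) : S_MAINP := by
  intro ι _ _ d N hN hd hsum
  obtain ⟨hmono, hstep, hge, hkap⟩ := hG N hN
  suffices H : ∀ m : ℕ, ∀ (J : Type) [Fintype J] [DecidableEq J]
      (A : J → (i : ι) → Matrix (Fin (d i)) (Fin (d i)) ℂ), Fintype.card J = m →
      (∀ g i, ‖A g i‖ ≤ 1) →
      ∃ ε : J → ℝ, (∀ g, ε g = 1 ∨ ε g = -1) ∧
        ∀ i, ‖∑ g, ((ε g : ℝ) : ℂ) • A g i‖ ≤ 10 ^ 5 * Real.sqrt (gf N m) by
    intro J _ _ A hA
    exact H (Fintype.card J) J A rfl hA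
  intro m
  induction m using Nat.strong_induction_on with
  | _ m ih =>
    intro J _ _ A hm hA
    rcases Nat.lt_or_ge m 4 with hm4 | hm4
    · -- few matrices
      refine ⟨fun _ => 1, fun _ => Or.inl rfl, fun i => ?_⟩
      have h1 : ‖∑ g, (((1 : ℝ) : ℝ) : ℂ) • A g i‖ ≤ (m : ℝ) := by
        calc ‖∑ g, (((1 : ℝ) : ℝ) : ℂ) • A g i‖ ≤ ∑ g : J, ‖(((1 : ℝ) : ℝ) : ℂ) • A g i‖ :=
              norm_sum_le _ _
          _ ≤ ∑ _g : J, (1 : ℝ) := by
              refine Finset.sum_le_sum fun g _ => ?_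
              simpa using hA g i
          _ = (m : ℝ) := by simp [hm]
      refine h1.trans ?_
      rcases Nat.eq_zero_or_pos m with hm0 | hm0
      · subst hm0
        simp only [Nat.cast_zero]
        positivity
      · have h2 : (1 : ℝ) ≤ (m : ℝ) := by exact_mod_cast hm0
        have h3 : (m : ℝ) ≤ gf N m := hge m (by linarith)
        have h4 : (1 : ℝ) ≤ Real.sqrt (gf N m) := by
          rw [Real.one_le_sqrt]; linarith
        have h5 : (m : ℝ) ≤ 3 := by
          have : m ≤ 3 := by omega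
          exact_mod_cast this
        nlinarith
    · -- the main step
      have hmpos : (0 : ℝ) < (m : ℝ) := by
        have : 0 < m := by omega
        exact_mod_cast this
      obtain ⟨κ, hκ2, hκN, hκm⟩ := hkap m hmpos
      obtain ⟨x, hx, hxc, hxn⟩ := hP ι d κ N hd hsum hκ2 J A (by rw [hm]; exact hm4)
        (by rw [hm]; exact hκN) hA
      rw [hm] at hxc hxn
      -- the uncoloured part
      have hcard : Fintype.card {g : J // x g = 0} + (univ.filter fun g => x g ≠ 0).card = m := by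
        rw [Fintype.card_subtype, ← hm, ← Finset.card_univ (α := J)]
        exact Finset.card_filter_add_card_filter_not (s := (univ : Finset J)) (fun g => x g = 0)
      set m' := Fintype.card {g : J // x g = 0} with hm'
      have hc' : ((m' : ℕ) : ℝ) ≤ 9 / 10 * m := by
        have h1 : ((m' : ℕ) : ℝ) + ((univ.filter fun g => x g ≠ 0).card : ℝ) = m := by
          exact_mod_cast hcard
        linarith
      have hlt : m' < m := by
        have h1 : ((m' : ℕ) : ℝ) < m := by linarith
        exact_mod_cast h1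
      obtain ⟨ε', hε', hn'⟩ := ih m' hlt {g : J // x g = 0} (fun g => A g.1) rfl
        (fun g i => hA g.1 i)
      refine ⟨fun g => if h : x g = 0 then ε' ⟨g, h⟩ else x g, fun g => ?_, fun i => ?_⟩
      · by_cases h : x g = 0
        · simpa [h] using hε' ⟨g, h⟩
        · rcases hx g with h0 | h0 | h0
          · exact absurd h0 h
          · left; simp [h0]
          · right; simp [h0]
      · have hsplit : ∑ g, (((if h : x g = 0 then ε' ⟨g, h⟩ else x g : ℝ)) : ℂ) • A g i =
            ∑ g : {g : J // x g = 0}, ((ε' g : ℝ) : ℂ) • A g.1 i + ∑ g, ((x g : ℝ) : ℂ) • A g i := by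
          rw [← Finset.sum_filter_add_sum_filter_not (univ : Finset J) (fun g => x g = 0)]
          congr 1
          · rw [← Finset.sum_subtype_eq_sum_filter]
            rw [Finset.subtype_univ]
            refine Finset.sum_congr rfl fun g _ => ?_
            simp [g.2]
          · rw [← Finset.sum_filter_add_sum_filter_not (univ : Finset J) (fun g => x g = 0)
              (f := fun g => ((x g : ℝ) : ℂ) • A g i)]
            have h0 : ∑ g ∈ univ.filter (fun g => x g = 0), ((x g : ℝ) : ℂ) • A g i = 0 := by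
              refine Finset.sum_eq_zero fun g hg => ?_
              rw [(Finset.mem_filter.mp hg).2]; simp
            rw [h0, zero_add]
            refine Finset.sum_congr rfl fun g hg => ?_
            simp [(Finset.mem_filter.mp hg).2]
        rw [hsplit]
        have hb1 : ‖∑ g : {g : J // x g = 0}, ((ε' g : ℝ) : ℂ) • A g.1 i‖ ≤
            10 ^ 5 * (0.9975 * Real.sqrt (gf N m)) := by
          refine (hn' i).trans ?_
          refine mul_le_mul_of_nonneg_left ?_ (by norm_num)
          rcases Nat.eq_zero_or_pos m' with h0 | h0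
          · rw [h0]
            have : gf N ((0 : ℕ) : ℝ) = 0 := by simp [gf]
            rw [this, Real.sqrt_zero]
            positivity
          · have h0' : (0 : ℝ) < (m' : ℝ) := by exact_mod_cast h0
            exact sqrt_step _ _ ((hmono _ _ h0' hc').trans (hstep m hmpos))
        have hb2 : ‖∑ g, ((x g : ℝ) : ℂ) • A g i‖ ≤ 170 * Real.sqrt (gf N m) :=
          (hxn i).trans (sc_le m κ (gf N m) hκm)
        have hs : 0 ≤ Real.sqrt (gf N m) := Real.sqrt_nonneg _
        calc _ ≤ ‖∑ g : {g : J // x g = 0}, ((ε' g : ℝ) : ℂ) • A g.1 i‖ +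
              ‖∑ g, ((x g : ℝ) : ℂ) • A g i‖ := norm_add_le _ _
          _ ≤ 10 ^ 5 * Real.sqrt (gf N m) := by nlinarith

theorem MAIN_ok (h : S_MAINP) : S_MAIN := by
  intro ι _ _ d N hN hsum J _ _ A hA
  have hs : ((∑ i : {i // 0 < d i}, d i.1 ^ 2 : ℕ) : ℝ) ≤ N := by
    refine le_trans ?_ hsum
    have h1 : ∑ i : {i // 0 < d i}, d i.1 ^ 2 = ∑ i ∈ univ.filter (fun i => 0 < d i), d i ^ 2 := by
      rw [← Finset.sum_subtype_eq_sum_filter, Finset.subtype_univ]
    rw [h1]
    exact_mod_cast Finset.sum_le_sum_of_subset (Finset.filter_subset _ _)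
  obtain ⟨ε, hε, hn⟩ := h {i // 0 < d i} (fun i => d i.1) N hN (fun i => i.2) hs J
    (fun g i => A g i.1) (fun g i => hA g i.1)
  refine ⟨ε, hε, fun i => ?_⟩
  rcases Nat.eq_zero_or_pos (d i) with h0 | h0
  · have : IsEmpty (Fin (d i)) := by rw [h0]; infer_instance
    have h1 : (∑ g, ((ε g : ℝ) : ℂ) • A g i) = 0 := Subsingleton.elim _ _
    rw [h1, norm_zero]
    positivity
  · exact hn ⟨i, h0⟩

end Pool.Agent.U437.SPN
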