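import Pool.Agent.Q98.SPN.Stm
set_option autoImplicit false
open scoped Matrix.Norms.L2Operator Matrix
open Finset
namespace Pool.Agent.U437.SPN
open Pool.Agent.Q98.SPN
open Pool.Agent.H172R2.GS (sg XX arrays)

namespace MODAux

/-- conjugation by a unit as an algebra isomorphism -/
noncomputable def conjAlg {A : Type} [Ring A] [Algebra ℂ A] (u : Aˣ) : A ≃ₐ[ℂ] A where
  toFun x := (u : A) * x * ((u⁻¹ : Aˣ) : A)
  invFun x := ((u⁻¹ : Aˣ) : A) * x * (u : A)
  left_inv x := by simp [mul_assoc]
  right_inv x := by simp [mul_assoc]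
  map_mul' x y := by simp [mul_assoc]
  map_add' x y := by simp [mul_add, add_mul]
  commutes' r := by
    rw [← Algebra.commutes, mul_assoc, Units.mul_inv, mul_one]

end MODAux

theorem MOD_ok (hW : S_WED) (hU : S_UNI) : S_MOD := by
  intro G _ _ _
  obtain ⟨k, d, Φ, hpos, hsum⟩ := hW G
  let ρ : (i : Fin k) → G →* Matrix (Fin (d i)) (Fin (d i)) ℂ := fun i =>
    { toFun := fun g => Φ (MonoidAlgebra.single g 1) i
      map_one' := by
        have h : (MonoidAlgebra.single (1 : G) (1 : ℂ)) = 1 := rfl
        rw [h, map_one]; rfl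
      map_mul' := fun a b => by
        have h : (MonoidAlgebra.single (a * b) (1 : ℂ)) =
            MonoidAlgebra.single a 1 * MonoidAlgebra.single b 1 := by
          rw [MonoidAlgebra.single_mul_single, mul_one]
        rw [h, map_mul]; rfl }
  choose S hS using fun i => hU G (d i) (ρ i)
  exact ⟨k, d, Φ.trans (AlgEquiv.piCongrRight fun i => MODAux.conjAlg (S i)),
    ⟨hpos, fun g i => hS i g⟩, hsum⟩

end Pool.Agent.U437.SPN
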