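import Pool.Agent.Q98.SPN.Stm
set_option autoImplicit false
open scoped Matrix.Norms.L2Operator Matrix
open Finset
namespace Pool.Agent.U437.SPN
open Pool.Agent.Q98.SPN
open Pool.Agent.H172R2.GS (sg XX arrays)

namespace NRMAux

theorem elt_coeff {G : Type} [Group G] [Fintype G] (x : G → ℂ) (g : G) : (elt x).coeff g = x g := by
  classical
  unfold elt
  rw [MonoidAlgebra.coeff_sum, Finsupp.finsetSum_apply]
  simp only [MonoidAlgebra.coeff_single, Finsupp.single_apply]
  simp

theorem elt_coeff_eq {G : Type} [Group G] [Fintype G] (a : MonoidAlgebra ℂ G) :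
    elt (fun g => a.coeff g) = a := by
  ext g
  exact elt_coeff _ g

theorem mul_coeff {G : Type} [Group G] [Fintype G] [DecidableEq G] (x v : G → ℂ) (g : G) :
    (elt x * elt v).coeff g = (conv x *ᵥ v) g := by
  have h1 : elt x * elt v = ∑ h : G, ∑ k : G, MonoidAlgebra.single (h * k) (x h * v k) := by
    unfold elt
    rw [Finset.sum_mul_sum]
    refine Finset.sum_congr rfl fun h _ => Finset.sum_congr rfl fun k _ => ?_
    rw [MonoidAlgebra.single_mul_single]
  rw [h1, MonoidAlgebra.coeff_sum, Finsupp.finsetSum_apply]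
  simp only [MonoidAlgebra.coeff_sum, Finsupp.finsetSum_apply, MonoidAlgebra.coeff_single, Finsupp.single_apply]
  rw [Finset.sum_comm]
  unfold conv Matrix.mulVec dotProduct
  refine Finset.sum_congr rfl fun k _ => ?_
  rw [Finset.sum_eq_single (g * k⁻¹)]
  · simp
  · intro h _ hne
    rw [if_neg]
    intro h'
    apply hne
    rw [← h']
    group
  · intro h
    exact absurd (Finset.mem_univ _) h

/-- the square of the Euclidean norm -/
theorem norm_sq {G : Type} [Fintype G] (v : EuclideanSpace ℂ G) : ‖v‖ ^ 2 = ∑ g, ‖v g‖ ^ 2 :=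
  EuclideanSpace.norm_sq_eq v

theorem upper {G : Type} [Fintype G] [DecidableEq G] (A : Matrix G G ℂ) (c : ℝ) (hc : 0 ≤ c)
    (h : ∀ v : G → ℂ, ∑ g, ‖(A *ᵥ v) g‖ ^ 2 ≤ c ^ 2 * ∑ g, ‖v g‖ ^ 2) : ‖A‖ ≤ c := by
  rw [Matrix.l2_opNorm_def]
  refine ContinuousLinearMap.opNorm_le_bound _ hc fun v => ?_
  refine (sq_le_sq₀ (norm_nonneg _) (mul_nonneg hc (norm_nonneg _))).1 ?_
  rw [norm_sq, mul_pow, norm_sq]
  exact h v

theorem lower {G : Type} [Fintype G] [DecidableEq G] (A : Matrix G G ℂ) (v : G → ℂ) :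
    ∑ g, ‖(A *ᵥ v) g‖ ^ 2 ≤ ‖A‖ ^ 2 * ∑ g, ‖v g‖ ^ 2 := by
  have h := Matrix.l2_opNorm_mulVec A ((EuclideanSpace.equiv G ℂ).symm v)
  have h2 := pow_le_pow_left₀ (norm_nonneg _) h 2
  rw [mul_pow, norm_sq, norm_sq] at h2
  exact h2

open scoped ComplexOrder in
theorem trace_nonneg {d : ℕ} (Y : Matrix (Fin d) (Fin d) ℂ) : 0 ≤ (Matrix.trace (Yᴴ * Y)).re := by
  have h := (Matrix.posSemidef_conjTranspose_mul_self Y).trace_nonneg
  exact (Complex.le_def.1 h).1

end NRMAux

open NRMAux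

theorem NRM_ok (hP : S_PLA) (hH : S_HS) : S_NRM := by
  intro G _ _ _ k d Ψ hU x
  have hG : (0 : ℝ) < Fintype.card G := by exact_mod_cast Fintype.card_pos
  -- Plancherel for the product
  have hmul : ∀ v : G → ℂ, (Fintype.card G : ℝ) * ∑ g, ‖(conv x *ᵥ v) g‖ ^ 2 =
      ∑ i, (d i : ℝ) * (Matrix.trace ((Ψ (elt x) i * Ψ (elt v) i)ᴴ * (Ψ (elt x) i * Ψ (elt v) i))).re := by
    intro v
    have h := hP G k d Ψ hU (elt x * elt v)
    simp only [mul_coeff, map_mul, Pi.mul_apply] at h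
    exact h
  have hone : ∀ v : G → ℂ, (Fintype.card G : ℝ) * ∑ g, ‖v g‖ ^ 2 =
      ∑ i, (d i : ℝ) * (Matrix.trace ((Ψ (elt v) i)ᴴ * Ψ (elt v) i)).re := by
    intro v
    have h := hP G k d Ψ hU (elt v)
    simp only [elt_coeff] at h
    exact h
  constructor
  · intro c hc hX
    refine upper _ c hc fun v => ?_
    refine le_of_mul_le_mul_left ?_ hG
    rw [hmul, mul_left_comm, hone, Finset.mul_sum]
    refine Finset.sum_le_sum fun i _ => ?_
    rw [mul_left_comm]
    refine mul_le_mul_of_nonneg_left ?_ (Nat.cast_nonneg _)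
    refine ((hH (d i) (Ψ (elt x) i) (Ψ (elt v) i)).1).trans ?_
    refine mul_le_mul_of_nonneg_right ?_ (trace_nonneg _)
    exact pow_le_pow_left₀ (norm_nonneg _) (hX i) 2
  · intro i
    refine (hH (d i) (Ψ (elt x) i) 0).2 ‖conv x‖ (norm_nonneg _) (hU.pos i) fun Z => ?_
    set a : MonoidAlgebra ℂ G := Ψ.symm (Function.update (0 : (i : Fin k) → Matrix (Fin (d i)) (Fin (d i)) ℂ) i Z) with ha
    set v : G → ℂ := fun g => a.coeff g with hv
    have hΨ : Ψ (elt v) = Function.update (0 : (i : Fin k) → Matrix (Fin (d i)) (Fin (d i)) ℂ) i Z := by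
      rw [hv, elt_coeff_eq, ha, AlgEquiv.apply_symm_apply]
    have hi : Ψ (elt v) i = Z := by rw [hΨ, Function.update_self]
    have hj : ∀ j, j ≠ i → Ψ (elt v) j = 0 := by
      intro j hj
      rw [hΨ, Function.update_of_ne hj]
      rfl
    have h1 := hmul v
    have h2 := hone v
    rw [Finset.sum_eq_single i] at h1 h2
    · rw [hi] at h1 h2
      have h3 := mul_le_mul_of_nonneg_left (lower (conv x) v) hG.le
      rw [h1, mul_left_comm, h2, mul_left_comm] at h3
      have hd : (0 : ℝ) < d i := by exact_mod_cast hU.pos i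
      exact le_of_mul_le_mul_left h3 hd
    · intro j _ hne
      rw [hj j hne]
      simp
    · intro h
      exact absurd (Finset.mem_univ _) h
    · intro j _ hne
      rw [hj j hne]
      simp
    · intro h
      exact absurd (Finset.mem_univ _) h

end Pool.Agent.U437.SPN
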