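import Pool.Agent.Q98.SPN.Stm
set_option autoImplicit false
open scoped Matrix.Norms.L2Operator Matrix
open Finset
namespace Pool.Agent.U437.SPN
open Pool.Agent.Q98.SPN
open Pool.Agent.H172R2.GS (sg XX arrays)

/-! Package PLA (helper678). -/

theorem PLA_ok (hM : S_TRM) (hG : S_TRG) (hA : S_ADJ) : S_PLA := by
  intro G _ _ k d Ψ hΨ a
  obtain ⟨h1, h2⟩ := hA G k d Ψ hΨ a
  have h3 : LinearMap.trace ℂ _ (LinearMap.mulLeft ℂ (Ψ (adj a * a))) =
      LinearMap.trace ℂ _ (LinearMap.mulLeft ℂ (adj a * a)) := by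
    rw [← LinearMap.trace_conj' (LinearMap.mulLeft ℂ (adj a * a)) Ψ.toLinearEquiv]
    congr 1
    refine LinearMap.ext fun x => ?_
    rw [LinearEquiv.conj_apply_apply, LinearMap.mulLeft_apply, LinearMap.mulLeft_apply]
    change Ψ (adj a * a) * x = Ψ (adj a * a * Ψ.symm x)
    rw [map_mul Ψ (adj a * a) (Ψ.symm x), AlgEquiv.apply_symm_apply]
  rw [hM, hG, h2] at h3
  have h4 : ∀ i, Ψ (adj a * a) i = (Ψ a i)ᴴ * Ψ a i := fun i => by
    rw [map_mul, Pi.mul_apply, h1]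
  simp_rw [h4] at h3
  have h5 := congrArg Complex.re h3
  rw [Complex.re_sum] at h5
  have h6 : ((Fintype.card G : ℂ) * ((∑ g, ‖a.coeff g‖ ^ 2 : ℝ) : ℂ)).re =
      (Fintype.card G : ℝ) * ∑ g, ‖a.coeff g‖ ^ 2 := by
    rw [← Complex.ofReal_natCast, ← Complex.ofReal_mul, Complex.ofReal_re]
  rw [h6] at h5
  rw [← h5]
  refine Finset.sum_congr rfl fun i _ => ?_
  rw [← Complex.ofReal_natCast, Complex.re_ofReal_mul]

end Pool.Agent.U437.SPN
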