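import Pool.Agent.Q98.SPN.Stm
set_option autoImplicit false
open scoped Matrix.Norms.L2Operator Matrix
open Finset
namespace Pool.Agent.U437.SPN
open Pool.Agent.Q98.SPN
open Pool.Agent.H172R2.GS (sg XX arrays)

namespace SMAux

lemma cosh_ge (y : ℝ) (k : ℕ) : y ^ (2 * k) / ((2 * k).factorial : ℝ) ≤ Real.cosh y := by
  have h := Real.hasSum_cosh y
  refine le_hasSum h k (fun i _ => ?_)
  have : 0 ≤ y ^ (2 * i) := by
    rw [pow_mul]
    positivity
  positivity

lemma sum_exp (J : Type) [Fintype J] [DecidableEq J] (t : ℝ) :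
    ∑ ε : J → Bool, Real.exp (t * ∑ g, sg (ε g)) = (2 * Real.cosh t) ^ Fintype.card J := by
  have h1 : ∀ ε : J → Bool, Real.exp (t * ∑ g, sg (ε g)) = ∏ g, Real.exp (t * sg (ε g)) := by
    intro ε
    rw [Finset.mul_sum, Real.exp_sum]
  rw [Finset.sum_congr rfl fun ε _ => h1 ε]
  have h2 := Finset.prod_univ_sum (fun _ : J => (univ : Finset Bool)) (fun (_ : J) b => Real.exp (t * sg b))
  rw [Fintype.piFinset_univ] at h2
  rw [← h2, Finset.prod_const, Finset.card_univ]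
  congr 1
  rw [Fintype.sum_bool]
  unfold sg
  rw [Real.cosh_eq]
  simp
  ring

lemma sum_cosh (J : Type) [Fintype J] [DecidableEq J] (t : ℝ) :
    ∑ ε : J → Bool, Real.cosh (t * ∑ g, sg (ε g)) = (2 * Real.cosh t) ^ Fintype.card J := by
  have h1 := sum_exp J t
  have h2 := sum_exp J (-t)
  rw [Real.cosh_neg] at h2
  have h3 : ∀ ε : J → Bool, Real.cosh (t * ∑ g, sg (ε g)) =
      (Real.exp (t * ∑ g, sg (ε g)) + Real.exp (-t * ∑ g, sg (ε g))) / 2 := by
    intro ε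
    rw [Real.cosh_eq, neg_mul]
  rw [Finset.sum_congr rfl fun ε _ => h3 ε, ← Finset.sum_div, Finset.sum_add_distrib, h1, h2]
  ring

end SMAux

theorem SM_ok : S_SM := by
  intro J _ _ κ hm hκ
  obtain ⟨m, hmm⟩ : ∃ m : ℕ, m = Fintype.card J := ⟨_, rfl⟩
  rw [← hmm] at hm ⊢
  have hm0 : (0 : ℝ) < m := by exact_mod_cast hm
  have hk0 : (0 : ℝ) < κ := by exact_mod_cast hκ
  obtain ⟨t, ht⟩ : ∃ t : ℝ, t = Real.sqrt (2 * κ / m) := ⟨_, rfl⟩
  have ht2 : t ^ 2 = 2 * κ / m := by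
    rw [ht, Real.sq_sqrt (by positivity)]
  have htk : t ^ (2 * κ) = (2 * κ / m) ^ κ := by rw [pow_mul, ht2]
  have htp : 0 < t ^ (2 * κ) := by
    rw [htk]
    positivity
  have h1 : ∀ ε : J → Bool, (∑ g, sg (ε g)) ^ (2 * κ) ≤
      ((2 * κ).factorial : ℝ) / t ^ (2 * κ) * Real.cosh (t * ∑ g, sg (ε g)) := by
    intro ε
    have h2 := SMAux.cosh_ge (t * ∑ g, sg (ε g)) κ
    have hf : (0 : ℝ) < ((2 * κ).factorial : ℝ) := by exact_mod_cast Nat.factorial_pos _
    rw [mul_pow, div_le_iff₀ hf] at h2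
    rw [div_mul_eq_mul_div, le_div_iff₀ htp]
    linarith
  refine (Finset.sum_le_sum fun ε _ => h1 ε).trans ?_
  rw [← Finset.mul_sum, SMAux.sum_cosh, ← hmm, mul_pow]
  have h2 : Real.cosh t ^ m ≤ Real.exp 1 ^ κ := by
    have h3 : Real.cosh t ^ m ≤ Real.exp (t ^ 2 / 2) ^ m :=
      pow_le_pow_left₀ (Real.cosh_pos t).le (Real.cosh_le_exp_half_sq t) m
    refine h3.trans (le_of_eq ?_)
    rw [← Real.exp_nat_mul, ← Real.exp_nat_mul, ht2]
    congr 1
    field_simp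
  have h3 : ((2 * κ).factorial : ℝ) ≤ (2 * κ : ℝ) ^ (2 * κ) := by
    have := Nat.factorial_le_pow (2 * κ)
    exact_mod_cast this
  calc ((2 * κ).factorial : ℝ) / t ^ (2 * κ) * (2 ^ m * Real.cosh t ^ m)
      ≤ (2 * κ : ℝ) ^ (2 * κ) / t ^ (2 * κ) * (2 ^ m * Real.exp 1 ^ κ) := by
        refine mul_le_mul (div_le_div_of_nonneg_right h3 htp.le)
          (mul_le_mul_of_nonneg_left h2 (by positivity)) ?_ (by positivity)
        have := Real.cosh_pos t
        positivity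
    _ = 2 ^ m * (2 * Real.exp 1 * κ * m) ^ κ := by
        rw [htk]
        have e1 : (2 * κ : ℝ) ^ (2 * κ) / (2 * κ / m) ^ κ = (2 * κ * m) ^ κ := by
          rw [pow_mul, ← div_pow]
          congr 1
          field_simp
        rw [e1]
        have e2 : (2 * κ * m : ℝ) ^ κ * (2 ^ m * Real.exp 1 ^ κ) = 2 ^ m * ((2 * κ * m) * Real.exp 1) ^ κ := by
          rw [mul_pow (2 * κ * m : ℝ)]
          ring
        rw [e2]
        congr 2
        ring

end Pool.Agent.U437.SPN
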