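import Pool.Agent.U437.SPN.Asm

/-!
# Matrix Spencer in real algebras closed under transposition, and for symmetric families

`star_bound` : contractions in a transpose-closed algebra of dimension `≤ N`.
`two_sided` : contractions intertwining two `t`-generated actions.
-/

set_option autoImplicit false

open scoped Matrix.Norms.L2Operator Matrix
open Finset

namespace Pool.Agent.U437.SPN

open Pool.Agent.Q98.SPN Pool.Agent.U834.GSP

theorem norm_sum_le_of_complex {m : ℕ} {J : Type} [Fintype J] (ε : J → ℝ)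
    (A : J → Matrix (Fin m) (Fin m) ℝ) :
    (∑ j, ε j • A j).map (fun x : ℝ => (x : ℂ)) =
      ∑ j, ((ε j : ℝ) : ℂ) • (A j).map (fun x : ℝ => (x : ℂ)) := by
  ext h k
  simp only [Matrix.map_apply, Matrix.sum_apply, Matrix.smul_apply, smul_eq_mul]
  push_cast
  rfl

/-- contractions in a transpose-closed unital real algebra of dimension `≤ N` -/
theorem star_bound (m : ℕ) (ℬ : StarSubalgebra ℝ (Matrix (Fin m) (Fin m) ℝ)) (N : ℝ) (hN : 0 < N)
    (hdim : (Module.finrank ℝ ℬ : ℝ) ≤ N) (J : Type) [Fintype J] [DecidableEq J]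
    (A : J → Matrix (Fin m) (Fin m) ℝ) (hA : ∀ j, A j ∈ ℬ) (hn : ∀ j, ‖A j‖ ≤ 1) :
    ∃ ε : J → ℝ, (∀ j, ε j = 1 ∨ ε j = -1) ∧
      ‖∑ j, ε j • A j‖ ≤ 10 ^ 5 * Real.sqrt (gf N (Fintype.card J)) := by
  obtain ⟨𝒜, h𝒜, hdA⟩ := cpx_ok m ℬ
  obtain ⟨k, d, Ψ, hd, hΨ⟩ := iso_ok m 𝒜
  have hd' : ((∑ i, d i ^ 2 : ℕ) : ℝ) ≤ N := by
    rw [hd]
    exact le_trans (by exact_mod_cast hdA) hdim
  let B : J → 𝒜 := fun j => ⟨(A j).map (fun x : ℝ => (x : ℂ)), h𝒜 _ (hA j)⟩
  obtain ⟨ε, hε, hb⟩ := main_ok (Fin k) d N hN hd' J (fun j i => Ψ (B j) i)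
    (fun j i => ((hΨ (B j)).1 i).trans (by
      change ‖(A j).map (fun x : ℝ => (x : ℂ))‖ ≤ 1
      rw [norm_map_ofReal]
      exact hn j))
  refine ⟨ε, hε, ?_⟩
  rw [← norm_map_ofReal, norm_sum_le_of_complex]
  have e : ((∑ j, ((ε j : ℝ) : ℂ) • B j : 𝒜) : Matrix (Fin m) (Fin m) ℂ) =
      ∑ j, ((ε j : ℝ) : ℂ) • (A j).map (fun x : ℝ => (x : ℂ)) := by
    have : ((∑ j, ((ε j : ℝ) : ℂ) • B j : 𝒜) : Matrix (Fin m) (Fin m) ℂ) =
        𝒜.subtype (∑ j, ((ε j : ℝ) : ℂ) • B j) := rfl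
    rw [this, map_sum]
    refine Finset.sum_congr rfl fun j _ => ?_
    rw [map_smul]
    rfl
  rw [← e]
  refine (hΨ _).2 _ (by positivity) fun i => ?_
  rw [map_sum, Finset.sum_apply]
  have : ∀ j, Ψ (((ε j : ℝ) : ℂ) • B j) i = ((ε j : ℝ) : ℂ) • Ψ (B j) i := by
    intro j
    rw [map_smul, Pi.smul_apply]
  simp only [this]
  exact hb i

/-- the commutant of a set of matrices for which `|κ|` vectors generate has dimension `≤ |κ| m` -/
theorem finrank_centralizer_le (m : ℕ) (S : Set (Matrix (Fin m) (Fin m) ℝ)) (κ : Type) [Fintype κ]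
    (v : κ → Fin m → ℝ)
    (hv : ∀ W : Submodule ℝ (Fin m → ℝ), (∀ M ∈ S, ∀ w ∈ W, M *ᵥ w ∈ W) → (∀ j, v j ∈ W) → W = ⊤) :
    Module.finrank ℝ (StarSubalgebra.centralizer ℝ S) ≤ Fintype.card κ * m := by
  let f : (StarSubalgebra.centralizer ℝ S) →ₗ[ℝ] (κ → Fin m → ℝ) :=
    { toFun := fun a j => (a : Matrix (Fin m) (Fin m) ℝ) *ᵥ v j
      map_add' := by
        intro a b
        funext j
        change ((a : Matrix (Fin m) (Fin m) ℝ) + (b : Matrix (Fin m) (Fin m) ℝ)) *ᵥ v j = _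
        rw [Matrix.add_mulVec]
        rfl
      map_smul' := by
        intro c a
        funext j
        change (c • (a : Matrix (Fin m) (Fin m) ℝ)) *ᵥ v j = _
        rw [Matrix.smul_mulVec]
        rfl }
  have hf : Function.Injective f := by
    rw [injective_iff_map_eq_zero]
    intro a ha
    have h1 : ∀ j, (a : Matrix (Fin m) (Fin m) ℝ) *ᵥ v j = 0 := fun j => congrFun ha j
    have h2 := hv (LinearMap.ker (Matrix.mulVecLin (a : Matrix (Fin m) (Fin m) ℝ))) (by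
      intro M hM w hw
      rw [LinearMap.mem_ker, Matrix.mulVecLin_apply] at hw ⊢
      have hc := (StarSubalgebra.mem_centralizer_iff ℝ).mp a.2 M hM
      rw [Matrix.mulVec_mulVec, ← hc.1, ← Matrix.mulVec_mulVec, hw, Matrix.mulVec_zero]) (by
      intro j
      rw [LinearMap.mem_ker, Matrix.mulVecLin_apply]
      exact h1 j)
    apply Subtype.ext
    ext x y
    have h3 : (Pi.single y 1 : Fin m → ℝ) ∈
        LinearMap.ker (Matrix.mulVecLin (a : Matrix (Fin m) (Fin m) ℝ)) := by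
      rw [h2]; trivial
    rw [LinearMap.mem_ker, Matrix.mulVecLin_apply] at h3
    have h4 := congrFun h3 x
    simpa using h4
  have h := LinearMap.finrank_le_finrank_of_injective hf
  refine h.trans (le_of_eq ?_)
  rw [Module.finrank_pi_fintype]
  simp

end Pool.Agent.U437.SPN
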