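import Pool.Agent.Q98.SPN.Stm
set_option autoImplicit false
open scoped Matrix.Norms.L2Operator Matrix
open Finset
namespace Pool.Agent.U437.SPN
open Pool.Agent.Q98.SPN
open Pool.Agent.H172R2.GS (sg XX arrays)

/-! Project SPN, package TRG (helper502): traces and adjoints in the group algebra. -/

theorem TRG_ok : S_TRG := by
  intro G _ _ a
  classical
  rw [LinearMap.trace_eq_matrix_trace ℂ (MonoidAlgebra.basis G ℂ) (LinearMap.mulLeft ℂ a)]
  unfold Matrix.trace
  have h : ∀ g : G, (LinearMap.toMatrix (MonoidAlgebra.basis G ℂ) (MonoidAlgebra.basis G ℂ)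
      (LinearMap.mulLeft ℂ a)).diag g = a.coeff 1 := by
    intro g
    rw [Matrix.diag_apply, LinearMap.toMatrix_apply, LinearMap.mulLeft_apply]
    have e1 : (MonoidAlgebra.basis G ℂ) g = MonoidAlgebra.single g 1 := by simp
    have e2 : ∀ x : MonoidAlgebra ℂ G, (MonoidAlgebra.basis G ℂ).repr x g = x.coeff g := fun x => rfl
    rw [e1, e2, MonoidAlgebra.coeff_mul_single_apply, mul_inv_cancel, mul_one]
  rw [sum_congr rfl fun g _ => h g, sum_const, nsmul_eq_mul]
  rfl

namespace ADJAux

theorem expand {G : Type} [Group G] [Fintype G] (a : MonoidAlgebra ℂ G) :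
    a = ∑ g : G, a.coeff g • MonoidAlgebra.single g (1 : ℂ) := by
  classical
  apply MonoidAlgebra.coeff_injective
  ext h
  rw [MonoidAlgebra.coeff_sum, Finsupp.finsetSum_apply]
  simp only [MonoidAlgebra.coeff_smul, MonoidAlgebra.coeff_single, Finsupp.smul_apply, smul_eq_mul,
    Finsupp.single_apply, mul_ite, mul_one, mul_zero]
  rw [Finset.sum_ite_eq' univ h]
  simp

end ADJAux

open ADJAux in
theorem ADJ_ok : S_ADJ := by
  intro G _ _ k d Ψ hΨ a
  classical
  refine ⟨fun i => ?_, ?_⟩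
  · have hinv : ∀ g : G, (Ψ (MonoidAlgebra.single g 1) i)ᴴ = Ψ (MonoidAlgebra.single g⁻¹ 1) i := by
      intro g
      have h1 : Ψ (MonoidAlgebra.single g 1) i * Ψ (MonoidAlgebra.single g⁻¹ 1) i = 1 := by
        rw [← Pi.mul_apply, ← map_mul, MonoidAlgebra.single_mul_single, mul_inv_cancel, mul_one,
          ← MonoidAlgebra.one_def, map_one, Pi.one_apply]
      calc (Ψ (MonoidAlgebra.single g 1) i)ᴴ =
          (Ψ (MonoidAlgebra.single g 1) i)ᴴ *
            (Ψ (MonoidAlgebra.single g 1) i * Ψ (MonoidAlgebra.single g⁻¹ 1) i) := by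
              rw [h1, mul_one]
        _ = _ := by rw [← mul_assoc, hΨ.unitary g i, one_mul]
    have hsum : ∀ c : G → ℂ, Ψ (∑ g : G, c g • MonoidAlgebra.single g (1 : ℂ)) i =
        ∑ g : G, c g • Ψ (MonoidAlgebra.single g 1) i := by
      intro c
      rw [map_sum, Finset.sum_apply]
      refine sum_congr rfl fun g _ => ?_
      rw [map_smul, Pi.smul_apply]
    have hadj : adj a = ∑ g : G, star (a.coeff g⁻¹) • MonoidAlgebra.single g (1 : ℂ) := by
      unfold adj
      refine sum_congr rfl fun g _ => ?_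
      rw [MonoidAlgebra.smul_single, smul_eq_mul, mul_one]
    have ha := expand a
    rw [hadj, hsum]
    conv_rhs => rw [ha, hsum]
    rw [Matrix.conjTranspose_sum]
    rw [← Equiv.sum_comp (Equiv.inv G) (fun g => (a.coeff g • Ψ (MonoidAlgebra.single g 1) i)ᴴ)]
    refine sum_congr rfl fun g _ => ?_
    rw [Equiv.inv_apply, Matrix.conjTranspose_smul, hinv, inv_inv]
  · unfold adj
    rw [sum_mul, MonoidAlgebra.coeff_sum, Finsupp.finsetSum_apply]
    have h : ∀ g : G, (MonoidAlgebra.single g (star (a.coeff g⁻¹)) * a).coeff 1 =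
        ((‖a.coeff g⁻¹‖ ^ 2 : ℝ) : ℂ) := by
      intro g
      rw [MonoidAlgebra.coeff_single_mul_apply, mul_one, Complex.star_def, mul_comm, Complex.mul_conj,
        Complex.normSq_eq_norm_sq]
    rw [sum_congr rfl fun g _ => h g]
    rw [Complex.ofReal_sum]
    exact Equiv.sum_comp (Equiv.inv G) (fun g => ((‖a.coeff g‖ ^ 2 : ℝ) : ℂ))

end Pool.Agent.U437.SPN
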