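import Pool.Agent.Q98.SPN.Stm
set_option autoImplicit false
open scoped Matrix.Norms.L2Operator Matrix
open Finset
namespace Pool.Agent.U437.SPN
open Pool.Agent.Q98.SPN
open Pool.Agent.H172R2.GS (sg XX arrays)

theorem TRM_ok : S_TRM := by
  intro k d a
  classical
  set b := Pi.basis (fun i : Fin k => Matrix.stdBasis ℂ (Fin (d i)) (Fin (d i))) with hb
  rw [LinearMap.trace_eq_matrix_trace ℂ b, Matrix.trace]
  have key : ∀ j : (i : Fin k) × (Fin (d i) × Fin (d i)),
      (LinearMap.toMatrix b b (LinearMap.mulLeft ℂ a)).diag j = a j.1 j.2.1 j.2.1 := by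
    rintro ⟨i, u, v⟩
    rw [Matrix.diag_apply, LinearMap.toMatrix_apply, hb, Pi.basis_repr, Pi.basis_apply]
    simp only [LinearMap.mulLeft_apply, Matrix.stdBasis_eq_single]
    rw [Pi.mul_apply, Pi.single_eq_same]
    simp [Matrix.stdBasis]
  rw [Finset.sum_congr rfl (fun j _ => key j)]
  rw [Fintype.sum_sigma]
  refine Finset.sum_congr rfl fun i _ => ?_
  rw [Fintype.sum_prod_type]
  simp [Matrix.trace, Finset.mul_sum]

end Pool.Agent.U437.SPN
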