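import Pool.Agent.U437.SPN.Star

/-!
# Contractions intertwining two `t`-generated actions
-/

set_option autoImplicit false

open scoped Matrix.Norms.L2Operator Matrix
open Finset

namespace Pool.Agent.U437.SPN

open Pool.Agent.Q98.SPN Pool.Agent.U834.GSP

section
variable {n : ℕ}

/-- the sum of two index sets -/
def es (n : ℕ) : Fin n ⊕ Fin n ≃ Fin (n + n) := finSumFinEquiv

/-- a vector with two parts -/
def vv (u w : Fin n → ℝ) : Fin (n + n) → ℝ := Sum.elim u w ∘ (es n).symm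

/-- a matrix with four blocks -/
def bl (P Q R T : Matrix (Fin n) (Fin n) ℝ) : Matrix (Fin (n + n)) (Fin (n + n)) ℝ :=
  (Matrix.fromBlocks P Q R T).submatrix (es n).symm (es n).symm

theorem bl_mulVec (P Q R T : Matrix (Fin n) (Fin n) ℝ) (u w : Fin n → ℝ) :
    bl P Q R T *ᵥ vv u w = vv (P *ᵥ u + Q *ᵥ w) (R *ᵥ u + T *ᵥ w) := by
  rw [bl, vv, Matrix.submatrix_mulVec_equiv]
  have : (Sum.elim u w ∘ (es n).symm) ∘ (es n).symm.symm = Sum.elim u w := by
    funext x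
    simp
  rw [this, Matrix.fromBlocks_mulVec, vv]
  simp

theorem vv_surj (x : Fin (n + n) → ℝ) : ∃ u w, x = vv u w :=
  ⟨fun a => x (es n (Sum.inl a)), fun a => x (es n (Sum.inr a)), by
    funext k
    obtain ⟨s, rfl⟩ := (es n).surjective k
    rcases s with a | a <;> simp [vv]⟩

theorem vv_sum_sq (u w : Fin n → ℝ) : ∑ k, (vv u w k) ^ 2 = ∑ j, u j ^ 2 + ∑ j, w j ^ 2 := by
  rw [← Equiv.sum_comp (es n), Fintype.sum_sum_type]
  simp [vv]

theorem bl_mul (P Q R T P' Q' R' T' : Matrix (Fin n) (Fin n) ℝ) :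
    bl P Q R T * bl P' Q' R' T' = bl (P * P' + Q * R') (P * Q' + Q * T') (R * P' + T * R') (R * Q' + T * T') := by
  rw [bl, bl, bl, Matrix.submatrix_mul_equiv, Matrix.fromBlocks_multiply]

theorem bl_transpose (P Q R T : Matrix (Fin n) (Fin n) ℝ) : star (bl P Q R T) = bl Pᵀ Rᵀ Qᵀ Tᵀ := by
  rw [Matrix.star_eq_conjTranspose, bl, bl, Matrix.conjTranspose_submatrix, Matrix.fromBlocks_conjTranspose]
  simp only [Matrix.conjTranspose_eq_transpose_of_trivial]

theorem vv_add (u w u' w' : Fin n → ℝ) : vv u w + vv u' w' = vv (u + u') (w + w') := by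
  funext k
  obtain ⟨s, rfl⟩ := (es n).surjective k
  rcases s with a | a <;> simp [vv]

theorem vv_smul (c : ℝ) (u w : Fin n → ℝ) : c • vv u w = vv (c • u) (c • w) := by
  funext k
  obtain ⟨s, rfl⟩ := (es n).surjective k
  rcases s with a | a <;> simp [vv]

end

theorem norm_le_one_of {m : ℕ} (M : Matrix (Fin m) (Fin m) ℝ)
    (h : ∀ v : Fin m → ℝ, ∑ j, ((M *ᵥ v) j) ^ 2 ≤ ∑ j, v j ^ 2) : ‖M‖ ≤ 1 := by
  refine norm_le_of_sum_sq M 1 zero_le_one fun v => ?_
  simpa [sq_abs] using h v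

/-- contractions `A_j` with `P A_j = A_j Q` for a transpose-closed set of pairs `(P, Q)`, when `t` vectors generate `ℝ^n`
under the `P` and `t` vectors generate it under the `Q` -/
theorem two_sided (n t : ℕ) (S : Set (Matrix (Fin n) (Fin n) ℝ × Matrix (Fin n) (Fin n) ℝ))
    (hS : ∀ p ∈ S, (p.1ᵀ, p.2ᵀ) ∈ S) (v w : Fin t → Fin n → ℝ)
    (hv : ∀ W : Submodule ℝ (Fin n → ℝ), (∀ p ∈ S, ∀ u ∈ W, p.1 *ᵥ u ∈ W) → (∀ j, v j ∈ W) → W = ⊤)
    (hw : ∀ W : Submodule ℝ (Fin n → ℝ), (∀ p ∈ S, ∀ u ∈ W, p.2 *ᵥ u ∈ W) → (∀ j, w j ∈ W) → W = ⊤)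
    (A : Fin n → Matrix (Fin n) (Fin n) ℝ)
    (hA : ∀ i, ∀ x : Fin n → ℝ, ∑ j, ((A i) *ᵥ x) j ^ 2 ≤ ∑ j, x j ^ 2)
    (hc : ∀ i, ∀ p ∈ S, p.1 * A i = A i * p.2) :
    ∃ ε : Fin n → ℝ, (∀ i, ε i = 1 ∨ ε i = -1) ∧
      ∀ x : Fin n → ℝ, ∑ j, ((∑ i, ε i • A i) *ᵥ x) j ^ 2 ≤
        (2 * 10 ^ 5) ^ 2 * (n * (1 + Real.log t)) * ∑ j, x j ^ 2 := by
  rcases Nat.eq_zero_or_pos n with rfl | hn
  · exact ⟨fun _ => 1, fun _ => Or.inl rfl, fun x => by simp⟩
  have ht : 0 < t := by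
    rcases Nat.eq_zero_or_pos t with rfl | h
    · have h1 := hv ⊥ (fun p _ u hu => by
        rw [Submodule.mem_bot] at hu ⊢
        rw [hu, Matrix.mulVec_zero]) (fun j => j.elim0)
      have h2 : (Pi.single ⟨0, hn⟩ 1 : Fin n → ℝ) ∈ (⊥ : Submodule ℝ (Fin n → ℝ)) := by
        rw [h1]; trivial
      rw [Submodule.mem_bot] at h2
      have := congrFun h2 ⟨0, hn⟩
      simp at this
    · exact h
  -- the big matrices
  let S' : Set (Matrix (Fin (n + n)) (Fin (n + n)) ℝ) := {M | ∃ p ∈ S, M = bl p.1 0 0 p.2}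
  let vs : Fin t ⊕ Fin t → Fin (n + n) → ℝ := Sum.elim (fun j => vv (v j) 0) (fun j => vv 0 (w j))
  have hgen : ∀ W : Submodule ℝ (Fin (n + n) → ℝ), (∀ M ∈ S', ∀ w ∈ W, M *ᵥ w ∈ W) → (∀ j, vs j ∈ W) → W = ⊤ := by
    intro W hW hvs
    let L1 : (Fin n → ℝ) →ₗ[ℝ] (Fin (n + n) → ℝ) :=
      { toFun := fun u => vv u 0
        map_add' := fun a b => by rw [vv_add, add_zero]
        map_smul' := fun c a => by rw [RingHom.id_apply, vv_smul, smul_zero] }
    let L2 : (Fin n → ℝ) →ₗ[ℝ] (Fin (n + n) → ℝ) :=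
      { toFun := fun u => vv 0 u
        map_add' := fun a b => by rw [vv_add, add_zero]
        map_smul' := fun c a => by rw [RingHom.id_apply, vv_smul, smul_zero] }
    have h1 : W.comap L1 = ⊤ := hv _ (fun p hp u hu => by
      have := hW (bl p.1 0 0 p.2) ⟨p, hp, rfl⟩ _ hu
      change bl p.1 0 0 p.2 *ᵥ vv u 0 ∈ W at this
      rw [bl_mulVec] at this
      simp only [Matrix.mulVec_zero, Matrix.zero_mulVec, add_zero] at this
      exact this) (fun j => hvs (Sum.inl j))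
    have h2 : W.comap L2 = ⊤ := hw _ (fun p hp u hu => by
      have := hW (bl p.1 0 0 p.2) ⟨p, hp, rfl⟩ _ hu
      change bl p.1 0 0 p.2 *ᵥ vv 0 u ∈ W at this
      rw [bl_mulVec] at this
      simp only [Matrix.mulVec_zero, Matrix.zero_mulVec, zero_add] at this
      exact this) (fun j => hvs (Sum.inr j))
    rw [eq_top_iff]
    intro x _
    obtain ⟨u, w', rfl⟩ := vv_surj x
    have e1 : vv u 0 ∈ W := by
      have : u ∈ W.comap L1 := by rw [h1]; trivial
      exact this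
    have e2 : vv 0 w' ∈ W := by
      have : w' ∈ W.comap L2 := by rw [h2]; trivial
      exact this
    have e3 := W.add_mem e1 e2
    rwa [vv_add, add_zero, zero_add] at e3
  have hdim := finrank_centralizer_le (n + n) S' (Fin t ⊕ Fin t) vs hgen
  have hN : ((Module.finrank ℝ (StarSubalgebra.centralizer ℝ S') : ℕ) : ℝ) ≤ (4 * t * n : ℝ) := by
    refine le_trans (Nat.cast_le.mpr hdim) (le_of_eq ?_)
    simp only [Fintype.card_sum, Fintype.card_fin]
    push_cast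
    ring
  have hn' : (0 : ℝ) < n := by exact_mod_cast hn
  have ht' : (1 : ℝ) ≤ t := by exact_mod_cast ht
  obtain ⟨ε, hε, hb⟩ := star_bound (n + n) (StarSubalgebra.centralizer ℝ S') (4 * t * n) (by positivity) hN
    (Fin n) (fun i => bl 0 (A i) 0 0) (by
      intro i
      rw [StarSubalgebra.mem_centralizer_iff]
      rintro g ⟨p, hp, rfl⟩
      have e1 := hc i p hp
      have e2 := hc i _ (hS p hp)
      refine ⟨?_, ?_⟩
      · rw [bl_mul, bl_mul]
        simp [e1]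
      · rw [bl_transpose, bl_mul, bl_mul]
        simp only [Matrix.transpose_zero, mul_zero, zero_mul, add_zero, zero_add]
        rw [e2]) (by
      intro i
      refine norm_le_one_of _ fun x => ?_
      obtain ⟨u, w', rfl⟩ := vv_surj x
      rw [bl_mulVec, vv_sum_sq, vv_sum_sq]
      simp only [Matrix.zero_mulVec, add_zero, zero_add, Pi.zero_apply]
      have h1 := hA i w'
      have h2 : 0 ≤ ∑ j, u j ^ 2 := Finset.sum_nonneg fun j _ => sq_nonneg _
      have h3 : ∑ _j : Fin n, (0 : ℝ) ^ 2 = 0 := by simp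
      rw [h3]
      linarith)
  refine ⟨ε, hε, fun x => ?_⟩
  have hsum : ∑ i, ε i • bl 0 (A i) 0 0 = bl 0 (∑ i, ε i • A i) 0 0 := by
    ext a b
    obtain ⟨s, rfl⟩ := (es n).surjective a
    obtain ⟨s', rfl⟩ := (es n).surjective b
    rcases s with s | s <;> rcases s' with s' | s' <;> simp [bl, Matrix.sum_apply]
  have h1 := sum_sq_mulVec_le (∑ i, ε i • bl 0 (A i) 0 0) (vv 0 x)
  rw [hsum, bl_mulVec] at h1
  simp only [Real.norm_eq_abs, sq_abs] at h1
  rw [vv_sum_sq, vv_sum_sq] at h1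
  simp only [Matrix.zero_mulVec, add_zero, zero_add, Pi.zero_apply] at h1
  have h3 : ∑ _j : Fin n, (0 : ℝ) ^ 2 = 0 := by simp
  rw [h3, zero_add, add_zero] at h1
  refine h1.trans ?_
  refine mul_le_mul_of_nonneg_right ?_ (Finset.sum_nonneg fun j _ => sq_nonneg _)
  rw [hsum] at hb
  have h4 : 0 ≤ gf (4 * t * n) (Fintype.card (Fin n)) := by
    rw [gf]
    have : 0 ≤ max 1 (Real.log (4 * t * n / (Fintype.card (Fin n) : ℝ))) := le_trans zero_le_one (le_max_left _ _)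
    positivity
  have h5 : ‖bl 0 (∑ i, ε i • A i) 0 0‖ ^ 2 ≤ (10 ^ 5) ^ 2 * gf (4 * t * n) (Fintype.card (Fin n)) := by
    calc ‖bl 0 (∑ i, ε i • A i) 0 0‖ ^ 2 ≤ (10 ^ 5 * Real.sqrt (gf (4 * t * n) (Fintype.card (Fin n)))) ^ 2 :=
          pow_le_pow_left₀ (norm_nonneg _) hb 2
      _ = _ := by rw [mul_pow, Real.sq_sqrt h4]
  refine h5.trans ?_
  rw [gf, Fintype.card_fin]
  have h6 : (4 * (t : ℝ) * n) / n = 4 * t := by field_simp
  rw [h6]
  have h7 : Real.log (4 * t) = Real.log 4 + Real.log t := Real.log_mul (by norm_num) (by positivity)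
  have h8 : Real.log 4 ≤ 3 := by
    have := Real.log_le_sub_one_of_pos (show (0 : ℝ) < 4 by norm_num)
    linarith
  have h9 : 0 ≤ Real.log t := Real.log_nonneg ht'
  have h10 : max 1 (Real.log (4 * t)) ≤ 4 * (1 + Real.log t) := by
    refine max_le ?_ ?_
    · linarith
    · rw [h7]; linarith
  calc (10 ^ 5) ^ 2 * ((n : ℝ) * max 1 (Real.log (4 * t))) ≤ (10 ^ 5) ^ 2 * ((n : ℝ) * (4 * (1 + Real.log t))) := by
        gcongr
    _ = _ := by ring

end Pool.Agent.U437.SPN
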