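import Pool.Agent.Q98.SPN.Stm

set_option autoImplicit false

open scoped Matrix.Norms.L2Operator Matrix ComplexOrder
open Finset

namespace Pool.Agent.U437.SPN

open Pool.Agent.Q98.SPN
open Pool.Agent.H172R2.GS (sg XX arrays)

namespace UNIAux

/-- the averaged form -/
noncomputable def hh {G : Type} [Group G] [Fintype G] {d : ℕ} (ρ : G →* Matrix (Fin d) (Fin d) ℂ) :
    Matrix (Fin d) (Fin d) ℂ := ∑ g, (ρ g)ᴴ * ρ g

theorem hh_inv {G : Type} [Group G] [Fintype G] {d : ℕ} (ρ : G →* Matrix (Fin d) (Fin d) ℂ) (a : G) :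
    (ρ a)ᴴ * hh ρ * ρ a = hh ρ := by
  unfold hh
  rw [Finset.mul_sum, Finset.sum_mul]
  have h1 : ∀ g : G, (ρ a)ᴴ * ((ρ g)ᴴ * ρ g) * ρ a = (ρ (g * a))ᴴ * ρ (g * a) := by
    intro g
    rw [map_mul, Matrix.conjTranspose_mul]
    simp only [Matrix.mul_assoc]
  rw [Finset.sum_congr rfl fun g _ => h1 g]
  exact Fintype.sum_equiv (Equiv.mulRight a) _ _ fun g => rfl

theorem hh_pos {G : Type} [Group G] [Fintype G] {d : ℕ} (ρ : G →* Matrix (Fin d) (Fin d) ℂ) :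
    (hh ρ).PosDef := by
  classical
  unfold hh
  rw [← Finset.add_sum_erase univ _ (Finset.mem_univ (1 : G))]
  refine Matrix.PosDef.add_posSemidef ?_ ?_
  · rw [map_one, Matrix.conjTranspose_one, Matrix.mul_one]
    exact Matrix.PosDef.one
  · exact Matrix.posSemidef_sum _ fun g _ => Matrix.posSemidef_conjTranspose_mul_self _

open scoped MatrixOrder in
theorem fac {d : ℕ} {h : Matrix (Fin d) (Fin d) ℂ} (hp : h.PosSemidef) :
    ∃ B : Matrix (Fin d) (Fin d) ℂ, h = Bᴴ * B := by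
  obtain ⟨B, hB⟩ := CStarAlgebra.nonneg_iff_eq_star_mul_self.mp hp.nonneg
  exact ⟨B, hB⟩

end UNIAux

open UNIAux

theorem UNI_ok : S_UNI := by
  intro G _ _ d ρ
  have hp := hh_pos ρ
  obtain ⟨B, hB⟩ := fac hp.posSemidef
  have hu : IsUnit B := by
    have h1 := hp.isUnit
    rw [hB, Matrix.isUnit_iff_isUnit_det, Matrix.det_mul] at h1
    rw [Matrix.isUnit_iff_isUnit_det]
    exact isUnit_of_mul_isUnit_right h1
  obtain ⟨S, rfl⟩ := hu
  refine ⟨S, fun g => ?_⟩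
  have h2 : (S : Matrix (Fin d) (Fin d) ℂ) * ((S⁻¹ : (Matrix (Fin d) (Fin d) ℂ)ˣ) : Matrix (Fin d) (Fin d) ℂ) = 1 :=
    S.mul_inv
  generalize ((S⁻¹ : (Matrix (Fin d) (Fin d) ℂ)ˣ) : Matrix (Fin d) (Fin d) ℂ) = R at h2 ⊢
  generalize (S : Matrix (Fin d) (Fin d) ℂ) = B at h2 hB ⊢
  have h3 := hh_inv ρ g
  calc (B * ρ g * R)ᴴ * (B * ρ g * R) = Rᴴ * ((ρ g)ᴴ * (Bᴴ * B) * ρ g) * R := by
        simp only [Matrix.conjTranspose_mul, Matrix.mul_assoc]
    _ = Rᴴ * (Bᴴ * B) * R := by rw [← hB, h3]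
    _ = (B * R)ᴴ * (B * R) := by simp only [Matrix.conjTranspose_mul, Matrix.mul_assoc]
    _ = 1 := by rw [h2, Matrix.conjTranspose_one, Matrix.mul_one]

end Pool.Agent.U437.SPN
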