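import Pool.Agent.Q98.SPN.Stm

/-!
# SPN-WED: the group algebra over the complex numbers is a product of matrix algebras
-/

set_option autoImplicit false

open scoped Matrix.Norms.L2Operator Matrix
open Finset

namespace Pool.Agent.U437.SPN

open Pool.Agent.Q98.SPN
open Pool.Agent.H172R2.GS (sg XX arrays)

theorem WED_ok : S_WED := by
  intro G _ _ _
  have : NeZero ((Nat.card G : ℕ) : ℂ) := ⟨by
    rw [Nat.card_eq_fintype_card]
    exact_mod_cast Fintype.card_ne_zero⟩
  have : FiniteDimensional ℂ (MonoidAlgebra ℂ G) :=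
    Module.Finite.of_basis (MonoidAlgebra.basis G ℂ)
  obtain ⟨k, d, hd, ⟨e⟩⟩ := IsSemisimpleRing.exists_algEquiv_pi_matrix_of_isAlgClosed ℂ
    (MonoidAlgebra ℂ G)
  refine ⟨k, d, e, fun i => Nat.pos_of_ne_zero (hd i).out, ?_⟩
  have h1 := LinearEquiv.finrank_eq e.toLinearEquiv
  have h2 : Module.finrank ℂ (MonoidAlgebra ℂ G) = Fintype.card G :=
    Module.finrank_eq_card_basis (MonoidAlgebra.basis G ℂ)
  rw [h2, Module.finrank_pi_fintype] at h1
  rw [h1]
  refine sum_congr rfl fun i _ => ?_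
  rw [Module.finrank_matrix]
  simp [pow_two]

end Pool.Agent.U437.SPN
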